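import Pool.Agent.J4.H59.SV.Src

/-!
# The numbers of the instance are polynomially bounded in the number of vertices
-/

set_option autoImplicit false

namespace Pool.Agent.J4.H59.SV

open Finset Pool.Agent.NPC.H632

section

variable {n s q V : ℕ} {M : ℕ → ℕ → ℕ} (hM : ∀ k i, M k i ≤ 1) (hq : q ≤ n)
  (hV : 2 * s + 1 + n * (4 * s + 1) = V)
include hV

theorem NN_le : NN n (2 * s) ≤ V := by
  unfold NN
  rw [← hV]
  have : (n + 1) * (2 * s + 1) + n * (2 * s) = 2 * s + 1 + n * (4 * s + 1) := by ring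
  omega

theorem nm_le : 2 * s * n ≤ V := by
  rw [← hV]
  have : 2 * s * n + (2 * s + 1 + n * (2 * s) + n) = 2 * s + 1 + n * (4 * s + 1) := by ring
  omega

theorem n_le : n + 1 ≤ V := by
  have h1 := NN_le hV
  have h2 : NN n (2 * s) = n + 1 + (n + 1) * (2 * s) := by unfold NN; ring
  omega

theorem one_le_V : 1 ≤ V := by
  have := n_le hV
  omega

theorem Lam_le : Lam n ≤ 4 * V := by
  have := n_le hV
  unfold Lam
  omega

theorem TT_le : TT n (2 * s) ≤ 8 * V ^ 2 := by
  have h1 := NN_le hV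
  have h2 := n_le hV
  have h3 := Lam_le hV
  calc TT n (2 * s) = NN n (2 * s) * Lam n + (n + 1) * Lam n := rfl
    _ ≤ V * (4 * V) + V * (4 * V) := by gcongr
    _ = 8 * V ^ 2 := by ring

include hq in
theorem XX_le : XX n (2 * s) q ≤ 2 * V ^ 2 := by
  have h1 : PC n (2 * s) ≤ V := by
    have h1 := NN_le hV
    have h2 : NN n (2 * s) = 2 * s * (n + 1) + (n + 1) := by unfold NN; ring
    unfold PC
    omega
  have h2 := n_le hV
  calc XX n (2 * s) q = 2 * (q * PC n (2 * s)) := rfl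
    _ ≤ 2 * (V * V) := by gcongr; omega
    _ = 2 * V ^ 2 := by ring

include hq in
theorem GG_le : GG n (2 * s) q ≤ 11 * V ^ 2 := by
  have h1 := TT_le hV
  have h2 := XX_le hq hV
  have h3 := one_le_V hV
  have h4 : 1 ≤ V ^ 2 := Nat.one_le_pow _ _ h3
  unfold GG
  omega

include hM in
theorem WT_le : WT n (2 * s) M ≤ 2 * V ^ 2 := by
  have h1 := nm_le hV
  have h2 := n_le hV
  calc WT n (2 * s) M ≤ ∑ k ∈ range (2 * s), ∑ i ∈ range n, 2 * V := by
        refine Finset.sum_le_sum fun k _ => Finset.sum_le_sum fun i _ => ?_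
        have := hM k i
        unfold wt
        omega
    _ = 2 * s * n * (2 * V) := by simp; ring
    _ ≤ V * (2 * V) := by gcongr
    _ = 2 * V ^ 2 := by ring

include hM hq in
theorem BB_le : BB n (2 * s) q M ≤ 33 * V ^ 4 := by
  have h1 := TT_le hV
  have h2 := XX_le hq hV
  have h3 := one_le_V hV
  have h4 := GG_le hq hV
  have h5 := WT_le hM hV
  have h6 : V ^ 2 ≤ V ^ 4 := Nat.pow_le_pow_right h3 (by norm_num)
  have h7 : 1 ≤ V ^ 4 := Nat.one_le_pow _ _ h3
  calc BB n (2 * s) q M = GG n (2 * s) q * WT n (2 * s) M + TT n (2 * s) + XX n (2 * s) q + 1 := rfl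
    _ ≤ (11 * V ^ 2) * (2 * V ^ 2) + 8 * V ^ 2 + 2 * V ^ 2 + 1 := by gcongr
    _ = 22 * V ^ 4 + 10 * V ^ 2 + 1 := by ring
    _ ≤ 33 * V ^ 4 := by omega

include hM hq in
theorem KK_le : KK n (2 * s) q M ≤ 65 * V ^ 5 := by
  have h1 := TT_le hV
  have h2 := XX_le hq hV
  have h3 := one_le_V hV
  have h4 := GG_le hq hV
  have h5 := WT_le hM hV
  have h8 := BB_le hM hq hV
  have h9 := NN_le hV
  have h6 : V ^ 2 ≤ V ^ 5 := Nat.pow_le_pow_right h3 (by norm_num)
  have h7 : V ^ 4 ≤ V ^ 5 := Nat.pow_le_pow_right h3 (by norm_num)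
  calc KK n (2 * s) q M = BB n (2 * s) q M * NN n (2 * s) + GG n (2 * s) q * WT n (2 * s) M +
        TT n (2 * s) + XX n (2 * s) q := rfl
    _ ≤ (33 * V ^ 4) * V + (11 * V ^ 2) * (2 * V ^ 2) + 8 * V ^ 2 + 2 * V ^ 2 := by gcongr
    _ = 33 * V ^ 5 + 22 * V ^ 4 + 10 * V ^ 2 := by ring
    _ ≤ 65 * V ^ 5 := by omega

include hM hq in
theorem rr_le {j : Job} (hj : Valid n (2 * s) j) : rr n (2 * s) q M j ≤ 77 * V ^ 5 := by
  have h3 := one_le_V hV
  have h4 := GG_le hq hV
  have h5 := WT_le hM hV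
  have h8 := BB_le hM hq hV
  have h9 := NN_le hV
  have h10 := n_le hV
  have h7 : V ^ 4 ≤ V ^ 5 := Nat.pow_le_pow_right h3 (by norm_num)
  cases j with
  | big e =>
    have hF : FF n (2 * s) M e ≤ 2 * V ^ 2 := by
      refine le_trans ?_ h5
      unfold FF WT
      refine Finset.sum_le_sum fun k _ => Finset.sum_le_sum fun i _ => ?_
      split_ifs
      · exact le_rfl
      · exact Nat.zero_le _
    have hD : DD n (2 * s) q e ≤ 2 * V ^ 2 := by
      have e1 : q * (n + 1) ≤ V * V := Nat.mul_le_mul (by omega) h10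
      have e2 : V * V = V ^ 2 := by ring
      have e3 : 1 ≤ V ^ 2 := Nat.one_le_pow _ _ h3
      unfold DD
      split_ifs <;> omega
    have he : e ≤ V := by
      have : e < NN n (2 * s) := hj
      omega
    calc rr n (2 * s) q M (.big e) = BB n (2 * s) q M * e +
          GG n (2 * s) q * (FF n (2 * s) M e + DD n (2 * s) q e) := rfl
      _ ≤ (33 * V ^ 4) * V + (11 * V ^ 2) * (2 * V ^ 2 + 2 * V ^ 2) := by gcongr
      _ = 33 * V ^ 5 + 44 * V ^ 4 := by ring
      _ ≤ 77 * V ^ 5 := by omega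
  | small k i =>
    have hv : k < 2 * s ∧ i < n := hj
    have he : av n k i + 1 ≤ V := by
      have := (av_lt_lv (k := k) hv.2).trans (lv_lt hv.1 hv.2)
      omega
    calc rr n (2 * s) q M (.small k i) = BB n (2 * s) q M * (av n k i + 1) := rfl
      _ ≤ (33 * V ^ 4) * V := by gcongr
      _ = 33 * V ^ 5 := by ring
      _ ≤ 77 * V ^ 5 := by omega

include hM hq in
theorem hh_le (j : Job) : hh n (2 * s) q M j ≤ 77 * V ^ 5 := by
  have h3 := one_le_V hV
  have h4 := GG_le hq hV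
  have h8 := BB_le hM hq hV
  have h10 := n_le hV
  have h7 : V ^ 4 ≤ V ^ 5 := Nat.pow_le_pow_right h3 (by norm_num)
  have h6 : V ^ 3 ≤ V ^ 5 := Nat.pow_le_pow_right h3 (by norm_num)
  cases j with
  | big e =>
    have : hh n (2 * s) q M (.big e) = BB n (2 * s) q M := rfl
    omega
  | small k i =>
    have hw : wt n M k i ≤ 2 * V := by
      have := hM k i
      unfold wt
      omega
    calc hh n (2 * s) q M (.small k i) = GG n (2 * s) q * wt n M k i := rfl
      _ ≤ (11 * V ^ 2) * (2 * V) := by gcongr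
      _ = 22 * V ^ 3 := by ring
      _ ≤ 77 * V ^ 5 := by omega

theorem xx_le {j : Job} (hj : j ∈ vlJ n s) : xx n (2 * s) j ≤ 4 * V ^ 2 := by
  have h1 : (n + 1) * Lam n ≤ 4 * V ^ 2 := by
    have h2 := n_le hV
    have h3 := Lam_le hV
    calc (n + 1) * Lam n ≤ V * (4 * V) := by gcongr
      _ = 4 * V ^ 2 := by ring
  refine le_trans ?_ h1
  unfold vlJ at hj
  rw [List.mem_append, List.mem_append, List.mem_flatMap] at hj
  rcases hj with h | ⟨i, hi, h⟩ | h
  · rw [xx_left h]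
    exact Nat.zero_le _
  · rw [List.mem_range] at hi
    have h2 := (xx_block hi h).2
    have h3 := lam_succ n i n hi
    omega
  · rw [xx_right h]

theorem Q_le : (V + 1) * V + 1 ≤ 3 * V ^ 2 := by
  have h3 := one_le_V hV
  have h1 : V ≤ V ^ 2 := by nlinarith
  have h2 : 1 ≤ V ^ 2 := Nat.one_le_pow _ _ h3
  have : (V + 1) * V + 1 = V ^ 2 + V + 1 := by ring
  omega

end

theorem redI_jobs (I : XI) : (redI I).jobs = (vlJ (nI I) (sI I)).map fun j =>
    (QI I * rr (nI I) (2 * sI I) (qI I) (MI I) j, QI I * hh (nI I) (2 * sI I) (qI I) (MI I) j) := by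
  show ((vlJ (nI I) (sI I)).map fun j => (rr (nI I) (2 * sI I) (qI I) (MI I) j,
    hh (nI I) (2 * sI I) (qI I) (MI I) j)).map (fun p => (QI I * p.1, QI I * p.2)) = _
  rw [List.map_map]
  rfl

theorem redI_travel (I : XI) : (redI I).travel =
    (List.range (((vlJ (nI I) (sI I)).map (xx (nI I) (2 * sI I))).length - 1)).map fun t =>
      (QI I * (((vlJ (nI I) (sI I)).map (xx (nI I) (2 * sI I))).getD (t + 1) 0 -
        ((vlJ (nI I) (sI I)).map (xx (nI I) (2 * sI I))).getD t 0) + 1,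
      QI I * (((vlJ (nI I) (sI I)).map (xx (nI I) (2 * sI I))).getD (t + 1) 0 -
        ((vlJ (nI I) (sI I)).map (xx (nI I) (2 * sI I))).getD t 0) + 1) := rfl

theorem redI_len (I : XI) : (redI I).jobs.length = (vlJ (nI I) (sI I)).length := by
  rw [redI_jobs, List.length_map]

theorem redI_small {I : XI} (hI : X3CPr I) : (redI I).Small := by
  have hq : qI I ≤ nI I := min_le_right _ _
  have hM := MI_le I
  have hV := (vl_length (nI I) (sI I)).symm
  have hbig : 20 ≤ (vlJ (nI I) (sI I)).length := by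
    have h1 : 1 ≤ qI I := by rw [qI_eq hI]; exact hI.2.1
    have h2 : 1 ≤ nI I := le_trans h1 hq
    have h3 : 3 ≤ sI I := by unfold sI; omega
    rw [← hV]
    have h4 : 1 * (4 * 3 + 1) ≤ nI I * (4 * sI I + 1) := Nat.mul_le_mul h2 (by omega)
    omega
  have hQ : QI I ≤ 3 * (vlJ (nI I) (sI I)).length ^ 2 := Q_le hV
  have hlen := redI_len I
  set V := (vlJ (nI I) (sI I)).length with hVdef
  have h400 : 400 ≤ V ^ 2 := by nlinarith
  have h99 : V ^ 9 = V ^ 2 * V ^ 7 := by ring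
  have key7 : ∀ a : ℕ, a ≤ 77 * V ^ 5 → QI I * a ≤ V ^ 9 := by
    intro a ha
    calc QI I * a ≤ (3 * V ^ 2) * (77 * V ^ 5) := Nat.mul_le_mul hQ ha
      _ = 231 * V ^ 7 := by ring
      _ ≤ V ^ 2 * V ^ 7 := Nat.mul_le_mul_right _ (by omega)
      _ = V ^ 9 := h99.symm
  have hV1 : 1 ≤ V := by omega
  have hVpos : ∀ k, 1 ≤ V ^ k := fun k => Nat.one_le_pow _ _ hV1
  refine ⟨?_, ?_, ?_⟩
  · intro e he
    rw [hlen]
    rw [redI_travel] at he
    obtain ⟨t, ht, rfl⟩ := List.mem_map.1 he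
    rw [List.mem_range, List.length_map] at ht
    have h1 : ((vlJ (nI I) (sI I)).map (xx (nI I) (2 * sI I))).getD (t + 1) 0 ≤ 4 * V ^ 2 := by
      rw [List.getD_eq_getElem _ _ (by rw [List.length_map]; omega), List.getElem_map]
      exact xx_le hV (List.getElem_mem _)
    have h2 : QI I * (((vlJ (nI I) (sI I)).map (xx (nI I) (2 * sI I))).getD (t + 1) 0 -
        ((vlJ (nI I) (sI I)).map (xx (nI I) (2 * sI I))).getD t 0) + 1 ≤ V ^ 9 := by
      calc _ ≤ (3 * V ^ 2) * (4 * V ^ 2) + 1 :=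
            Nat.add_le_add_right (Nat.mul_le_mul hQ (le_trans (Nat.sub_le _ _) h1)) _
        _ = 12 * V ^ 4 + 1 := by ring
        _ ≤ 13 * V ^ 7 := by
            have h3 : V ^ 4 ≤ V ^ 7 := Nat.pow_le_pow_right hV1 (by norm_num)
            have := hVpos 7
            omega
        _ ≤ V ^ 2 * V ^ 7 := Nat.mul_le_mul_right _ (by omega)
        _ = V ^ 9 := h99.symm
    exact ⟨h2, h2⟩
  · intro j hj
    rw [hlen]
    rw [redI_jobs] at hj
    obtain ⟨j', hj', rfl⟩ := List.mem_map.1 hj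
    exact ⟨key7 _ (rr_le hM hq hV ((mem_vl j').1 hj')), key7 _ (hh_le hM hq hV j')⟩
  · rw [hlen]
    have h1 : (redI I).bound = QI I * KK (nI I) (2 * sI I) (qI I) (MI I) + (QI I - 1) := rfl
    rw [h1]
    have h2 := KK_le hM hq hV
    calc QI I * KK (nI I) (2 * sI I) (qI I) (MI I) + (QI I - 1)
        ≤ (3 * V ^ 2) * (65 * V ^ 5) + 3 * V ^ 2 := by
          exact Nat.add_le_add (Nat.mul_le_mul hQ h2) (le_trans (Nat.sub_le _ _) hQ)
      _ = 195 * V ^ 7 + 3 * V ^ 2 := by ring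
      _ ≤ 198 * V ^ 7 := by
          have h3 : V ^ 2 ≤ V ^ 7 := Nat.pow_le_pow_right hV1 (by norm_num)
          omega
      _ ≤ V ^ 2 * V ^ 7 := Nat.mul_le_mul_right _ (by omega)
      _ = V ^ 9 := h99.symm

theorem GG_pos (n m q : ℕ) : 0 < GG n m q := by unfold GG; omega

theorem redI_nice (I : XI) : (redI I).Nice where
  edges := by
    have h1 : 0 < (vlJ (nI I) (sI I)).length := by rw [vl_length]; omega
    rw [redI_len, redI_travel, List.length_map, List.length_range, List.length_map]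
    omega
  start_eq := rfl
  symm e he := by
    rw [redI_travel] at he
    obtain ⟨t, -, rfl⟩ := List.mem_map.1 he
    rfl
  travel_pos e he := by
    rw [redI_travel] at he
    obtain ⟨t, -, rfl⟩ := List.mem_map.1 he
    exact Nat.succ_pos _
  handling_pos j hj := by
    rw [redI_jobs] at hj
    obtain ⟨j, hj, rfl⟩ := List.mem_map.1 hj
    have h1 : 0 < QI I := Nat.succ_pos _
    refine Nat.mul_pos h1 ?_
    cases j with
    | big e => exact Nat.succ_pos _
    | small k i => exact Nat.mul_pos (GG_pos _ _ _) (by unfold wt; omega)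

end Pool.Agent.J4.H59.SV
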