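import Pool.Agent.J4.H59.SV.Travel

/-!
# A solution of the covering problem gives a good schedule
-/

set_option autoImplicit false

namespace Pool.Agent.J4.H59.SV

open Finset

/-- the jobs processed from the time `e` to the time `e + 1` -/
def chunk (n m : ℕ) (S : Finset ℕ) (e : ℕ) : List Job :=
  .big e :: if e % (n + 1) < n then
    (if od n (e / (n + 1)) (e % (n + 1)) ∈ S then
      (if e / (n + 1) < m then [.small (e / (n + 1)) (od n (e / (n + 1)) (e % (n + 1)))] else [])
    else
      (if 1 ≤ e / (n + 1) then
        [.small (e / (n + 1) - 1) (od n (e / (n + 1)) (e % (n + 1)))] else []))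
    else []

/-- the time after which a job is processed -/
def hc (n : ℕ) (S : Finset ℕ) : Job → ℕ
  | .big e => e
  | .small k i => if i ∈ S then av n k i else lv n k i

theorem ko_div {n k o : ℕ} (ho : o ≤ n) : (k * (n + 1) + o) / (n + 1) = k := by
  rw [Nat.add_comm, Nat.add_mul_div_right _ _ (Nat.succ_pos n), Nat.div_eq_of_lt (by omega)]
  omega

theorem ko_mod {n k o : ℕ} (ho : o ≤ n) : (k * (n + 1) + o) % (n + 1) = o := by
  rw [Nat.add_comm, Nat.add_mul_mod_self_right]
  exact Nat.mod_eq_of_lt (by omega)

theorem chunk_ko {n m k o : ℕ} {S : Finset ℕ} (ho : o < n) : chunk n m S (k * (n + 1) + o) =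
    .big (k * (n + 1) + o) :: if od n k o ∈ S then (if k < m then [.small k (od n k o)] else [])
      else (if 1 ≤ k then [.small (k - 1) (od n k o)] else []) := by
  unfold chunk
  rw [ko_div ho.le, ko_mod ho.le, if_pos ho]

theorem chunk_last {n m k : ℕ} {S : Finset ℕ} : chunk n m S (k * (n + 1) + n) =
    [.big (k * (n + 1) + n)] := by
  unfold chunk
  rw [ko_div le_rfl, ko_mod le_rfl, if_neg (lt_irrefl n)]

theorem od_od {n k i : ℕ} (hi : i < n) : od n k (od n k i) = i := by
  unfold od
  split_ifs <;> omega

theorem hc_le_lv {n k i : ℕ} {S : Finset ℕ} (hi : i < n) : hc n S (.small k i) ≤ lv n k i := by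
  have := av_lt_lv (k := k) hi
  show (if i ∈ S then av n k i else lv n k i) ≤ _
  split_ifs <;> omega

theorem av_le_hc {n k i : ℕ} {S : Finset ℕ} (hi : i < n) : av n k i ≤ hc n S (.small k i) := by
  have := av_lt_lv (k := k) hi
  show _ ≤ (if i ∈ S then av n k i else lv n k i)
  split_ifs <;> omega

theorem mem_chunk {n m e : ℕ} {S : Finset ℕ} {j : Job} (he : e < NN n m) :
    j ∈ chunk n m S e ↔ Valid n m j ∧ hc n S j = e := by
  obtain ⟨k, o, ho, rfl⟩ := exists_ko n e
  have hkm : k ≤ m := by
    by_contra hcon
    have h1 : (m + 1) * (n + 1) ≤ k * (n + 1) := Nat.mul_le_mul_right _ (by omega)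
    unfold NN at he
    have h2 : (m + 1) * (n + 1) = (n + 1) * (m + 1) := by ring
    omega
  cases j with
  | big e' =>
    have h1 : (Job.big e' ∈ chunk n m S (k * (n + 1) + o)) ↔ e' = k * (n + 1) + o := by
      unfold chunk
      rw [List.mem_cons, Job.big.injEq]
      constructor
      · rintro (h | h)
        · exact h
        · exfalso
          split_ifs at h <;> simp at h
      · exact Or.inl
    rw [h1]
    constructor
    · rintro rfl
      exact ⟨he, rfl⟩
    · rintro ⟨_, h⟩
      exact h
  | small k' i' =>
    rcases Nat.eq_or_lt_of_le ho with h | h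
    · subst h
      rw [chunk_last]
      constructor
      · intro h
        simp at h
      · rintro ⟨hv, h⟩
        exfalso
        have hi := hv.2
        have key : ∀ a, av o a i' ≠ k * (o + 1) + o := by
          intro a ha
          have h1 := ko_mod (n := o) (k := k) (o := o) le_rfl
          have h2 := od_lt a hi
          have h3 := ko_mod (n := o) (k := a) (o := od o a i') h2.le
          unfold av at ha
          rw [ha, h1] at h3
          omega
        have h' : (if i' ∈ S then av o k' i' else lv o k' i') = k * (o + 1) + o := h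
        split_ifs at h'
        · exact key _ h'
        · exact key _ h'
    · rw [chunk_ko h, List.mem_cons]
      have hod := od_lt k h
      have e1 : av n k (od n k o) = k * (n + 1) + o := by
        unfold av; rw [od_od h]
      constructor
      · rintro (hj | hj)
        · simp at hj
        · split_ifs at hj with h1 h2 h2
          · simp only [List.mem_singleton, Job.small.injEq] at hj
            obtain ⟨rfl, rfl⟩ := hj
            refine ⟨⟨h2, hod⟩, ?_⟩
            show (if _ ∈ S then _ else _) = _
            rw [if_pos h1]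
            exact e1
          · simp at hj
          · simp only [List.mem_singleton, Job.small.injEq] at hj
            obtain ⟨rfl, rfl⟩ := hj
            refine ⟨⟨by omega, hod⟩, ?_⟩
            show (if _ ∈ S then _ else _) = _
            rw [if_neg h1, lv_eq_av, Nat.sub_add_cancel h2]
            exact e1
          · simp at hj
      · rintro ⟨hv, hj⟩
        right
        have hj' : (if i' ∈ S then av n k' i' else av n (k' + 1) i') = k * (n + 1) + o := hj
        rw [← e1] at hj'
        have hvk : k' < m := hv.1
        split_ifs at hj' with h1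
        · obtain ⟨h2, h3⟩ := av_inj hod hv.2 hj'
          rw [← h2, ← h3] at *
          rw [if_pos h1, if_pos (by omega)]
          simp
        · obtain ⟨h2, h3⟩ := av_inj hod hv.2 hj'
          rw [← h3, if_neg h1, if_pos (by omega)]
          have : k - 1 = k' := by omega
          rw [this]
          simp

theorem chunk_nodup {n m e : ℕ} {S : Finset ℕ} : (chunk n m S e).Nodup := by
  unfold chunk
  split_ifs <;> simp

/-- the schedule up to the time `e` -/
def pre (n m : ℕ) (S : Finset ℕ) (e : ℕ) : List Job := (List.range e).flatMap (chunk n m S)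

theorem pre_succ (n m : ℕ) (S : Finset ℕ) (e : ℕ) :
    pre n m S (e + 1) = pre n m S e ++ chunk n m S e := by
  simp [pre, List.range_succ]

theorem mem_pre {n m e : ℕ} {S : Finset ℕ} {j : Job} (he : e ≤ NN n m) :
    j ∈ pre n m S e ↔ Valid n m j ∧ hc n S j < e := by
  unfold pre
  rw [List.mem_flatMap]
  constructor
  · rintro ⟨e', he', hj⟩
    rw [List.mem_range] at he'
    rw [mem_chunk (by omega)] at hj
    exact ⟨hj.1, by omega⟩
  · rintro ⟨hv, hj⟩
    exact ⟨hc n S j, List.mem_range.2 hj, (mem_chunk (by omega)).2 ⟨hv, rfl⟩⟩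

theorem pre_nodup {n m e : ℕ} {S : Finset ℕ} (he : e ≤ NN n m) : (pre n m S e).Nodup := by
  unfold pre
  rw [List.nodup_flatMap]
  refine ⟨fun _ _ => chunk_nodup, ?_⟩
  refine List.nodup_range.imp_of_mem ?_
  intro a b ha hb hne
  rw [List.mem_range] at ha hb
  show List.Disjoint _ _
  intro j hja hjb
  rw [mem_chunk (by omega)] at hja hjb
  exact hne (hja.2.symm.trans hjb.2)

theorem hc_lt {n m : ℕ} {S : Finset ℕ} {j : Job} (hv : Valid n m j) : hc n S j < NN n m := by
  cases j with
  | big e => exact hv
  | small k i => exact lt_of_le_of_lt (hc_le_lv hv.2) (lv_lt hv.1 hv.2)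

/-- the work of the small jobs before the time `e` -/
def wk (n m : ℕ) (M : ℕ → ℕ → ℕ) (S : Finset ℕ) (e : ℕ) : ℕ :=
  ∑ k ∈ range m, ∑ i ∈ range n, if hc n S (.small k i) < e then wt n M k i else 0

theorem sum_pre {n m q e : ℕ} {M : ℕ → ℕ → ℕ} {S : Finset ℕ} (he : e ≤ NN n m) :
    ((pre n m S e).map (hh n m q M)).sum = BB n m q M * e + GG n m q * wk n m M S e := by
  rw [list_sum (n := n) (m := m) _ _ (pre_nodup he) (fun j hj => ((mem_pre he).1 hj).1)]
  congr 1
  · have h1 : ∀ e' ∈ range (NN n m), (if Job.big e' ∈ pre n m S e then hh n m q M (.big e') else 0) =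
        if e' < e then BB n m q M else 0 := by
      intro e' he'
      rw [Finset.mem_range] at he'
      have : Job.big e' ∈ pre n m S e ↔ e' < e := by
        rw [mem_pre he]
        exact ⟨fun h => h.2, fun h => ⟨he', h⟩⟩
      simp only [this]
      rfl
    rw [Finset.sum_congr rfl h1, ← Finset.sum_filter]
    have h2 : (range (NN n m)).filter (fun e' => e' < e) = range e := by
      ext x
      simp only [mem_filter, mem_range]
      omega
    rw [h2]
    simp [mul_comm]
  · unfold wk
    rw [Finset.mul_sum]
    refine Finset.sum_congr rfl fun k hk => ?_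
    rw [Finset.mul_sum]
    refine Finset.sum_congr rfl fun i hi => ?_
    rw [Finset.mem_range] at hk hi
    have : Job.small k i ∈ pre n m S e ↔ hc n S (.small k i) < e := by
      rw [mem_pre he]
      exact ⟨fun h => h.2, fun h => ⟨⟨hk, hi⟩, h⟩⟩
    simp only [this]
    split_ifs
    · rfl
    · simp

/-- the interval of the site `i` that contains the time `e` -/
def kap (n e i : ℕ) : ℕ := if od n (e / (n + 1)) i < e % (n + 1) then e / (n + 1) else e / (n + 1) - 1

theorem kap_spec {n m e i : ℕ} (hi : i < n) (h1 : n ≤ e) (h2 : e < m * (n + 1)) :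
    kap n e i < m ∧ av n (kap n e i) i < e ∧ e ≤ lv n (kap n e i) i := by
  obtain ⟨k, o, ho, rfl⟩ := exists_ko n e
  have hk : k < m := by
    by_contra hcon
    have h3 : m * (n + 1) ≤ k * (n + 1) := Nat.mul_le_mul_right _ (by omega)
    omega
  unfold kap
  rw [ko_div ho, ko_mod ho]
  have hod := od_lt k hi
  split_ifs with h3
  · refine ⟨hk, ?_, ?_⟩
    · unfold av; omega
    · unfold lv
      have : (k + 1) * (n + 1) = k * (n + 1) + (n + 1) := by ring
      omega
  · have hk1 : 1 ≤ k := by
      by_contra hcon
      have : k = 0 := by omega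
      subst this
      omega
    obtain ⟨k', rfl⟩ : ∃ k', k = k' + 1 := ⟨k - 1, by omega⟩
    rw [Nat.add_sub_cancel]
    refine ⟨by omega, ?_, ?_⟩
    · unfold av
      have := od_lt k' hi
      have : (k' + 1) * (n + 1) = k' * (n + 1) + (n + 1) := by ring
      omega
    · unfold lv; omega

theorem demand_le {n m q e : ℕ} {M : ℕ → ℕ → ℕ} {S : Finset ℕ} (hS : S ⊆ range n)
    (hq : S.card = q) (hhit : ∀ k < m, ∃ i ∈ S, M k i ≠ 0) :
    FF n m M e + DD n m q e ≤ wk n m M S e := by
  have h1 : FF n m M e + (∑ k ∈ range m, ∑ i ∈ range n,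
      if i ∈ S ∧ av n k i < e ∧ e ≤ lv n k i then wt n M k i else 0) = wk n m M S e := by
    unfold FF wk
    rw [← Finset.sum_add_distrib]
    refine Finset.sum_congr rfl fun k _ => ?_
    rw [← Finset.sum_add_distrib]
    refine Finset.sum_congr rfl fun i hi => ?_
    have h2 := av_lt_lv (k := k) (Finset.mem_range.1 hi)
    have h3 : hc n S (.small k i) = if i ∈ S then av n k i else lv n k i := rfl
    rw [h3]
    by_cases hiS : i ∈ S
    · simp only [hiS, true_and, if_true]
      split_ifs <;> omega
    · simp only [hiS, false_and, if_false]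
      omega
  rw [← h1]
  refine Nat.add_le_add_left ?_ _
  unfold DD
  split_ifs with hp hn
  · -- the end of a sweep
    have h2 : ∑ i ∈ S, wt n M (kap n e i) i ≤ ∑ k ∈ range m, ∑ i ∈ range n,
        if i ∈ S ∧ av n k i < e ∧ e ≤ lv n k i then wt n M k i else 0 := by
      rw [Finset.sum_comm]
      calc ∑ i ∈ S, wt n M (kap n e i) i ≤ ∑ i ∈ S, ∑ k ∈ range m,
            (if i ∈ S ∧ av n k i < e ∧ e ≤ lv n k i then wt n M k i else 0) := by
            refine Finset.sum_le_sum fun i hi => ?_
            obtain ⟨g1, g2, g3⟩ := kap_spec (m := m) (Finset.mem_range.1 (hS hi)) hp.1 hp.2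
            refine le_trans ?_ (Finset.single_le_sum (f := fun k => if i ∈ S ∧ av n k i < e ∧
              e ≤ lv n k i then wt n M k i else 0) (fun _ _ => Nat.zero_le _)
              (Finset.mem_range.2 g1))
            rw [if_pos ⟨hi, g2, g3⟩]
        _ ≤ _ := Finset.sum_le_sum_of_subset hS
    refine le_trans ?_ h2
    obtain ⟨k, o, ho, rfl⟩ := exists_ko n e
    rw [ko_mod ho] at hn
    have hkap : ∀ i ∈ S, kap n (k * (n + 1) + o) i = k := by
      intro i hi
      unfold kap
      rw [ko_div ho, ko_mod ho, if_pos]
      have := od_lt k (Finset.mem_range.1 (hS hi))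
      omega
    have hk : k < m := by
      by_contra hcon
      have h3 : m * (n + 1) ≤ k * (n + 1) := Nat.mul_le_mul_right _ (by omega)
      omega
    rw [Finset.sum_congr rfl (fun i hi => by rw [hkap i hi])]
    obtain ⟨i₀, hi₀, hM⟩ := hhit k hk
    unfold wt
    rw [Finset.sum_add_distrib, Finset.sum_const, hq, smul_eq_mul]
    have h4 : M k i₀ ≤ ∑ i ∈ S, M k i :=
      Finset.single_le_sum (f := fun i => M k i) (fun _ _ => Nat.zero_le _) hi₀
    omega
  · have h2 : ∑ i ∈ S, wt n M (kap n e i) i ≤ ∑ k ∈ range m, ∑ i ∈ range n,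
        if i ∈ S ∧ av n k i < e ∧ e ≤ lv n k i then wt n M k i else 0 := by
      rw [Finset.sum_comm]
      calc ∑ i ∈ S, wt n M (kap n e i) i ≤ ∑ i ∈ S, ∑ k ∈ range m,
            (if i ∈ S ∧ av n k i < e ∧ e ≤ lv n k i then wt n M k i else 0) := by
            refine Finset.sum_le_sum fun i hi => ?_
            obtain ⟨g1, g2, g3⟩ := kap_spec (m := m) (Finset.mem_range.1 (hS hi)) hp.1 hp.2
            refine le_trans ?_ (Finset.single_le_sum (f := fun k => if i ∈ S ∧ av n k i < e ∧
              e ≤ lv n k i then wt n M k i else 0) (fun _ _ => Nat.zero_le _)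
              (Finset.mem_range.2 g1))
            rw [if_pos ⟨hi, g2, g3⟩]
        _ ≤ _ := Finset.sum_le_sum_of_subset hS
    refine le_trans ?_ h2
    have h3 : ∑ i ∈ S, (n + 1) ≤ ∑ i ∈ S, wt n M (kap n e i) i :=
      Finset.sum_le_sum fun i _ => by unfold wt; omega
    rw [Finset.sum_const, hq, smul_eq_mul] at h3
    omega
  · exact Nat.zero_le _

/-- no waiting -/
theorem ok_pre {n m q e : ℕ} {M : ℕ → ℕ → ℕ} {S : Finset ℕ} (hS : S ⊆ range n)
    (hq : S.card = q) (hhit : ∀ k < m, ∃ i ∈ S, M k i ≠ 0) (he : e ≤ NN n m) :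
    Ok (rr n m q M) (hh n m q M) 0 (pre n m S e) := by
  induction e with
  | zero => trivial
  | succ e ih =>
    rw [pre_succ, ok_append]
    refine ⟨ih (by omega), ?_⟩
    rw [sum_pre (by omega), Nat.zero_add]
    have h1 := demand_le (M := M) (e := e) hS hq hhit
    have h2 : rr n m q M (.big e) ≤ BB n m q M * e + GG n m q * wk n m M S e := by
      have : rr n m q M (.big e) = BB n m q M * e + GG n m q * (FF n m M e + DD n m q e) := rfl
      rw [this]
      exact Nat.add_le_add_left (Nat.mul_le_mul_left _ h1) _
    have h3 : ∀ k i, Job.small k i ∈ chunk n m S e →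
        rr n m q M (.small k i) ≤ BB n m q M * e + GG n m q * wk n m M S e + BB n m q M := by
      intro k i hki
      rw [mem_chunk (by omega)] at hki
      have h4 : av n k i ≤ e := hki.2 ▸ av_le_hc hki.1.2
      have h5 : BB n m q M * (av n k i + 1) ≤ BB n m q M * (e + 1) :=
        Nat.mul_le_mul_left _ (by omega)
      have h6 : BB n m q M * (e + 1) = BB n m q M * e + BB n m q M := by ring
      have h7 : rr n m q M (.small k i) = BB n m q M * (av n k i + 1) := rfl
      omega
    obtain ⟨k, o, ho, rfl⟩ := exists_ko n e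
    rcases Nat.eq_or_lt_of_le ho with h | h
    · subst h
      rw [chunk_last]
      exact ⟨h2, trivial⟩
    · rw [chunk_ko h] at h3 ⊢
      refine ⟨h2, ?_⟩
      have h8 : hh n m q M (.big (k * (n + 1) + o)) = BB n m q M := rfl
      rw [h8]
      split_ifs at h3 ⊢ with g1 g2 g2
      · exact ⟨h3 _ _ (by simp), trivial⟩
      · trivial
      · exact ⟨h3 _ _ (by simp), trivial⟩
      · trivial

/-- the intervals of a site are disjoint -/
theorem sum_intervals {n i : ℕ} (hi : i < n) (e m : ℕ) :
    (∑ k ∈ range m, if av n k i < e ∧ e ≤ lv n k i then 1 else 0) +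
      (if av n m i < e then 1 else 0) = if av n 0 i < e then 1 else 0 := by
  induction m with
  | zero => simp
  | succ m ih =>
    rw [Finset.sum_range_succ, ← ih]
    have h1 := av_lt_lv (k := m) hi
    have h2 : lv n m i = av n (m + 1) i := rfl
    split_ifs <;> omega

theorem sum_dl_le {n m i : ℕ} (hi : i < n) : ∑ k ∈ range m, dl n m k i ≤ PC n m := by
  have h1 : ∑ k ∈ range m, dl n m k i = ∑ e ∈ Ico n (m * (n + 1)), ∑ k ∈ range m,
      if av n k i < e ∧ e ≤ lv n k i then 1 else 0 := by
    rw [Finset.sum_comm]
    exact Finset.sum_congr rfl fun k _ => sum_dl.symm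
  rw [h1]
  have h2 : ∑ e ∈ Ico n (m * (n + 1)), (1 : ℕ) = PC n m := by
    rw [Finset.sum_const, Nat.card_Ico, smul_eq_mul, mul_one]
    rfl
  rw [← h2]
  refine Finset.sum_le_sum fun e _ => ?_
  have h3 := sum_intervals hi e m
  split_ifs at h3 <;> omega

/-- the travel of a chunk -/
theorem travel_chunk {n m e : ℕ} {S : Finset ℕ} (he : e < NN n m) :
    ∃ rest, chunk n m S e = .big e :: rest ∧
      pl (xx n m (.big e)) (rest.map (xx n m) ++ [xx n m (.big (e + 1))]) ≤ Lam n +
        2 * ∑ k ∈ range m, ∑ i ∈ range n, if i ∈ S ∧ av n k i = e then dl n m k i else 0 := by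
  have hbase := ad_big (n := n) (m := m) (e := e)
  obtain ⟨k, o, ho, rfl⟩ := exists_ko n e
  rcases Nat.eq_or_lt_of_le ho with h | h
  · subst h
    refine ⟨[], chunk_last, ?_⟩
    simp only [List.map_nil, List.nil_append, pl, hbase]
    omega
  · refine ⟨_, chunk_ko h, ?_⟩
    have hi := od_lt k h
    have e1 : av n k (od n k o) = k * (n + 1) + o := by
      unfold av; rw [od_od h]
    have hx1 := xx_big (n := n) (m := m) (k := k) ho
    have hx2 := xx_big (n := n) (m := m) (k := k) (show o + 1 ≤ n from h)
    have hx3 : k * (n + 1) + o + 1 = k * (n + 1) + (o + 1) := by ring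
    split_ifs with g1 g2 g2
    · -- detour
      have h1 : dl n m k (od n k o) ≤ ∑ k' ∈ range m, ∑ i ∈ range n,
          if i ∈ S ∧ av n k' i = k * (n + 1) + o then dl n m k' i else 0 := by
        refine le_trans ?_ (Finset.single_le_sum (f := fun k' => ∑ i ∈ range n,
          if i ∈ S ∧ av n k' i = k * (n + 1) + o then dl n m k' i else 0)
          (fun _ _ => Nat.zero_le _) (Finset.mem_range.2 g2))
        refine le_trans ?_ (Finset.single_le_sum (f := fun i =>
          if i ∈ S ∧ av n k i = k * (n + 1) + o then dl n m k i else 0)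
          (fun _ _ => Nat.zero_le _) (Finset.mem_range.2 hi))
        rw [if_pos ⟨g1, e1⟩]
      have hd := dl_le (m := m) (k := k) hi
      simp only [List.map_cons, List.map_nil, List.cons_append, List.nil_append, pl, add_zero]
      have h2 : ad (xx n m (.big (k * (n + 1) + o))) (xx n m (.small k (od n k o))) +
          ad (xx n m (.small k (od n k o))) (xx n m (.big (k * (n + 1) + o + 1))) ≤
          Lam n + 2 * dl n m k (od n k o) := by
        rw [hx3, hx1, hx2, xx_small]
        split_ifs with hk
        · have hodk : od n k o = o := by unfold od; rw [if_pos hk]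
          rw [hodk] at hd ⊢
          have e2 : (o + 1 + 1) * Lam n = (o + 1) * Lam n + Lam n := by ring
          have e3 : 1 * Lam n ≤ (o + 1) * Lam n := Nat.mul_le_mul_right _ (by omega)
          have e4 : Lam n = 4 * n + 4 := rfl
          unfold ad
          omega
        · have hodk : od n k o = n - 1 - o := by unfold od; rw [if_neg hk]
          rw [hodk] at hd ⊢
          have e2 : n - 1 - o + 1 = n - o := by omega
          have e3 : (n - o) * Lam n = (n - (o + 1)) * Lam n + Lam n := by
            have e4 : n - o = n - (o + 1) + 1 := by omega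
            rw [e4]; ring
          rw [e2]
          unfold ad
          omega
      omega
    · simp only [List.map_nil, List.nil_append, pl, hbase]
      omega
    · -- on the way
      have hd := dl_le (m := m) (k := k - 1) hi
      simp only [List.map_cons, List.map_nil, List.cons_append, List.nil_append, pl, add_zero]
      have h2 : ad (xx n m (.big (k * (n + 1) + o))) (xx n m (.small (k - 1) (od n k o))) +
          ad (xx n m (.small (k - 1) (od n k o))) (xx n m (.big (k * (n + 1) + o + 1))) ≤
          Lam n := by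
        rw [hx3, hx1, hx2, xx_small]
        have e4 : Lam n = 4 * n + 4 := rfl
        rcases Nat.mod_two_eq_zero_or_one k with hk | hk
        · have hk1 : ¬ (k - 1) % 2 = 0 := by omega
          rw [if_pos hk, if_pos hk, if_neg hk1]
          have hodk : od n k o = o := by unfold od; rw [if_pos hk]
          rw [hodk] at hd ⊢
          have e2 : (o + 1 + 1) * Lam n = (o + 1) * Lam n + Lam n := by ring
          unfold ad
          omega
        · have hk0 : ¬ k % 2 = 0 := by omega
          have hk1 : (k - 1) % 2 = 0 := by omega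
          rw [if_neg hk0, if_neg hk0, if_pos hk1]
          have hodk : od n k o = n - 1 - o := by unfold od; rw [if_neg (by omega)]
          rw [hodk] at hd ⊢
          have e2 : n - 1 - o + 1 = n - o := by omega
          have e3 : (n - o) * Lam n = (n - (o + 1)) * Lam n + Lam n := by
            have e4 : n - o = n - (o + 1) + 1 := by omega
            rw [e4]; ring
          rw [e2]
          unfold ad
          omega
      omega
    · simp only [List.map_nil, List.nil_append, pl, hbase]
      omega

theorem travel_pre {n m e : ℕ} {S : Finset ℕ} (he : e < NN n m) :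
    pl 0 ((pre n m S e).map (xx n m) ++ [xx n m (.big e)]) ≤ (e + 1) * Lam n +
      2 * ∑ k ∈ range m, ∑ i ∈ range n, if i ∈ S ∧ av n k i < e then dl n m k i else 0 := by
  induction e with
  | zero =>
    have h1 := xx_big (n := n) (m := m) (k := 0) (Nat.zero_le n)
    simp only [Nat.zero_mul, Nat.zero_add, Nat.zero_mod, if_true] at h1
    simp [pre, pl, h1, ad]
  | succ e ih =>
    obtain ⟨rest, h1, h2⟩ := travel_chunk (n := n) (m := m) (S := S) (e := e) (by omega)
    have h3 : (pre n m S (e + 1)).map (xx n m) ++ [xx n m (.big (e + 1))] =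
        (pre n m S e).map (xx n m) ++ xx n m (.big e) ::
          (rest.map (xx n m) ++ [xx n m (.big (e + 1))]) := by
      rw [pre_succ, h1]
      simp
    rw [h3, pl_append]
    have h4 := ih (by omega)
    have h5 : (∑ k ∈ range m, ∑ i ∈ range n, if i ∈ S ∧ av n k i < e then dl n m k i else 0) +
        (∑ k ∈ range m, ∑ i ∈ range n, if i ∈ S ∧ av n k i = e then dl n m k i else 0) =
        ∑ k ∈ range m, ∑ i ∈ range n, if i ∈ S ∧ av n k i < e + 1 then dl n m k i else 0 := by
      rw [← Finset.sum_add_distrib]
      refine Finset.sum_congr rfl fun k _ => ?_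
      rw [← Finset.sum_add_distrib]
      refine Finset.sum_congr rfl fun i _ => ?_
      by_cases hiS : i ∈ S
      · simp only [hiS, true_and]
        split_ifs <;> omega
      · simp [hiS]
    have h6 : (e + 1 + 1) * Lam n = (e + 1) * Lam n + Lam n := by ring
    omega

/-- **A solution of the covering problem gives a good schedule.** -/
theorem exists_sch {n m q : ℕ} {M : ℕ → ℕ → ℕ} {S : Finset ℕ} (hm : m % 2 = 0)
    (hS : S ⊆ range n) (hq : S.card = q) (hhit : ∀ k < m, ∃ i ∈ S, M k i ≠ 0) :
    ∃ π, Sch n m q M π := by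
  have hN : NN n m = m * (n + 1) + n + 1 := by unfold NN; ring
  refine ⟨pre n m S (NN n m), pre_nodup le_rfl, fun j => ?_, ?_⟩
  · rw [mem_pre le_rfl]
    exact ⟨fun h => h.1, fun h => ⟨h, hc_lt h⟩⟩
  · rw [fin_eq _ _ _ _ _ 0 0 0 (ok_pre hS hq hhit le_rfl) le_rfl, sum_pre le_rfl]
    have h1 : wk n m M S (NN n m) = WT n m M := by
      unfold wk WT
      refine Finset.sum_congr rfl fun k hk => Finset.sum_congr rfl fun i hi => ?_
      rw [if_pos (hc_lt (show Valid n m (.small k i) from
        ⟨Finset.mem_range.1 hk, Finset.mem_range.1 hi⟩))]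
    have h2 : pre n m S (NN n m) = pre n m S (NN n m - 1) ++ [.big (NN n m - 1)] := by
      have e1 : NN n m - 1 = m * (n + 1) + n := by omega
      have e2 : NN n m = (NN n m - 1) + 1 := by omega
      conv_lhs => rw [e2]
      rw [pre_succ]
      rw [e1, chunk_last]
    have h3 := travel_pre (n := n) (m := m) (S := S) (e := NN n m - 1) (by omega)
    have h4 : xx n m (.big (NN n m - 1)) = (n + 1) * Lam n := by
      have e1 : NN n m - 1 = m * (n + 1) + n := by omega
      rw [e1, xx_big le_rfl, if_pos hm]
    have h5 : pl 0 ((pre n m S (NN n m)).map (xx n m) ++ [0]) =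
        pl 0 ((pre n m S (NN n m - 1)).map (xx n m) ++ [xx n m (.big (NN n m - 1))]) +
          (n + 1) * Lam n := by
      rw [h2]
      have : (pre n m S (NN n m - 1) ++ [Job.big (NN n m - 1)]).map (xx n m) ++ [0] =
          (pre n m S (NN n m - 1)).map (xx n m) ++ xx n m (.big (NN n m - 1)) :: [0] := by simp
      rw [this, pl_append]
      congr 1
      rw [h4]
      simp [pl, ad]
    have h6 : (∑ k ∈ range m, ∑ i ∈ range n,
        if i ∈ S ∧ av n k i < NN n m - 1 then dl n m k i else 0) ≤ q * PC n m := by
      calc _ ≤ ∑ k ∈ range m, ∑ i ∈ range n, (if i ∈ S then dl n m k i else 0) := by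
            refine Finset.sum_le_sum fun k _ => Finset.sum_le_sum fun i _ => ?_
            by_cases hiS : i ∈ S
            · simp only [hiS, true_and, if_true]
              split_ifs <;> omega
            · simp [hiS]
        _ = ∑ i ∈ S, ∑ k ∈ range m, dl n m k i := by
            rw [Finset.sum_comm]
            rw [← Finset.sum_filter_add_sum_filter_not (range n) (fun i => i ∈ S)]
            rw [Finset.filter_mem_eq_inter, Finset.inter_eq_right.2 hS]
            have e1 : ∑ i ∈ (range n).filter (fun i => ¬ i ∈ S), ∑ k ∈ range m,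
                (if i ∈ S then dl n m k i else 0) = 0 := by
              refine Finset.sum_eq_zero fun i hi => ?_
              simp [(Finset.mem_filter.1 hi).2]
            rw [e1, add_zero]
            exact Finset.sum_congr rfl fun i hi => by simp [hi]
        _ ≤ ∑ i ∈ S, PC n m := Finset.sum_le_sum fun i hi => sum_dl_le (Finset.mem_range.1 (hS hi))
        _ = q * PC n m := by rw [Finset.sum_const, hq, smul_eq_mul]
    have h7 : (NN n m - 1 + 1) * Lam n = NN n m * Lam n := by
      rw [Nat.sub_add_cancel (by omega)]
    rw [h7] at h3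
    rw [h1, h5]
    have h10 : KK n m q M = BB n m q M * NN n m + GG n m q * WT n m M + TT n m + XX n m q := rfl
    have h11 : TT n m = NN n m * Lam n + (n + 1) * Lam n := rfl
    have h12 : XX n m q = 2 * (q * PC n m) := rfl
    omega

end Pool.Agent.J4.H59.SV
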