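import Mathlib

/-!
# A vehicle on a line: basic estimates

Jobs have a coordinate `x`, a release time `r` and a handling time `h`.
-/

set_option autoImplicit false

namespace Pool.Agent.J4.H59.SV

open Finset

/-- the distance of two coordinates -/
def ad (a b : ℕ) : ℕ := (a - b) + (b - a)

theorem ad_self (a : ℕ) : ad a a = 0 := by simp [ad]

theorem ad_comm (a b : ℕ) : ad a b = ad b a := by unfold ad; omega

/-- does the unit `[y, y + 1]` separate `a` and `b`? -/
def cr (y a b : ℕ) : ℕ := if (a ≤ y ↔ b ≤ y) then 0 else 1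

theorem ad_eq {M a b : ℕ} (ha : a ≤ M) (hb : b ≤ M) : ad a b = ∑ y ∈ range M, cr y a b := by
  have key : ∀ u v : ℕ, v ≤ M → v - u = ∑ y ∈ range M, if u ≤ y ∧ y < v then 1 else 0 := by
    intro u v hv
    rw [← Finset.sum_filter]
    have : (range M).filter (fun y => u ≤ y ∧ y < v) = Ico u v := by
      ext e
      simp only [mem_Ico, mem_filter, mem_range]
      omega
    rw [this]
    simp
  unfold ad
  rw [key b a ha, key a b hb, ← Finset.sum_add_distrib]
  refine Finset.sum_congr rfl fun y _ => ?_
  unfold cr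
  by_cases h1 : a ≤ y <;> by_cases h2 : b ≤ y <;> simp [h1, h2]

theorem cr_tri (y a b c : ℕ) : cr y a c ≤ cr y a b + cr y b c := by
  unfold cr
  by_cases h1 : a ≤ y <;> by_cases h2 : b ≤ y <;> by_cases h3 : c ≤ y <;> simp [h1, h2, h3]

/-- the length of the route through the coordinates of the list -/
def pl : ℕ → List ℕ → ℕ
  | _, [] => 0
  | p, q :: l => ad p q + pl q l

/-- the number of times that the route crosses the unit `[y, y + 1]` -/
def cpl (y : ℕ) : ℕ → List ℕ → ℕ
  | _, [] => 0
  | p, q :: l => cr y p q + cpl y q l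

theorem pl_eq {M : ℕ} : ∀ (l : List ℕ) (p : ℕ), p ≤ M → (∀ q ∈ l, q ≤ M) →
    pl p l = ∑ y ∈ range M, cpl y p l
  | [], p, _, _ => by simp [pl, cpl]
  | q :: l, p, hp, hl => by
    have hq : q ≤ M := hl q (by simp)
    rw [pl, ad_eq hp hq, pl_eq l q hq (fun x hx => hl x (by simp [hx])),
      ← Finset.sum_add_distrib]
    rfl

theorem cpl_le_cons (y p q : ℕ) (l : List ℕ) : cpl y p l ≤ cr y p q + cpl y q l := by
  cases l with
  | nil => simp [cpl]
  | cons s l =>
    simp only [cpl]
    have := cr_tri y p q s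
    omega

theorem cpl_sublist (y : ℕ) {l₁ l₂ : List ℕ} (hs : l₁.Sublist l₂) :
    ∀ p, cpl y p l₁ ≤ cpl y p l₂ := by
  induction hs with
  | slnil => intro p; simp
  | cons a h ih =>
    intro p
    calc _ ≤ _ := cpl_le_cons y p a _
      _ ≤ _ := Nat.add_le_add_left (ih a) _
  | cons_cons a h ih =>
    intro p
    exact Nat.add_le_add_left (ih a) _

/-- A route from `p` to `q` through the places of `S` is long if it has to make detours: every unit
of `Y` has `p` and `q` on the same side and some place of `S` on the other side. -/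
theorem seg_ge {p q : ℕ} {S : List ℕ} (Y : Finset ℕ)
    (hY : ∀ y ∈ Y, (p ≤ y ↔ q ≤ y) ∧ ∃ z ∈ S, ¬ (z ≤ y ↔ p ≤ y)) :
    ad p q + 2 * Y.card ≤ pl p (S ++ [q]) := by
  obtain ⟨M, hpM, hqM, hSM⟩ : ∃ M, p ≤ M ∧ q ≤ M ∧ ∀ z ∈ S, z ≤ M := by
    refine ⟨p + q + S.sum, by omega, by omega, fun z hz => ?_⟩
    have := List.single_le_sum (l := S) (fun a _ => Nat.zero_le a) z hz
    omega
  have hYM : Y ⊆ range M := by
    intro y hy
    rw [Finset.mem_range]
    by_contra hcon
    obtain ⟨_, z, hz, hzy⟩ := hY y hy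
    have := hSM z hz
    exact hzy ⟨fun _ => by omega, fun _ => by omega⟩
  rw [ad_eq hpM hqM, pl_eq _ _ hpM (fun z hz => by
    rcases List.mem_append.1 hz with h1 | h1
    · exact hSM z h1
    · simp only [List.mem_singleton] at h1; omega)]
  have h2 : 2 * Y.card = ∑ y ∈ range M, if y ∈ Y then 2 else 0 := by
    rw [← Finset.sum_filter, Finset.filter_mem_eq_inter, Finset.inter_eq_right.2 hYM]
    simp [mul_comm]
  rw [h2, ← Finset.sum_add_distrib]
  refine Finset.sum_le_sum fun y _ => ?_
  split_ifs with hy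
  · obtain ⟨h3, z, hz, hzy⟩ := hY y hy
    have h4 : [z, q].Sublist (S ++ [q]) := (List.singleton_sublist.2 hz).append
      (List.Sublist.refl [q])
    have h5 := cpl_sublist y h4 p
    simp only [cpl, cr] at h5
    have e1 : cr y p q = 0 := by unfold cr; rw [if_pos h3]
    have e2 : ¬ (p ≤ y ↔ z ≤ y) := fun h => hzy h.symm
    have e3 : ¬ (z ≤ y ↔ q ≤ y) := fun h => hzy (h.trans h3.symm)
    rw [if_neg e2, if_neg e3] at h5
    omega
  · have h4 : [q].Sublist (S ++ [q]) := List.sublist_append_right _ _
    have h5 := cpl_sublist y h4 p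
    simpa [cpl] using h5

theorem pl_append (p : ℕ) (l₁ : List ℕ) (q : ℕ) (l₂ : List ℕ) :
    pl p (l₁ ++ q :: l₂) = pl p (l₁ ++ [q]) + pl q l₂ := by
  induction l₁ generalizing p with
  | nil => simp [pl]
  | cons a l ih =>
    simp only [List.cons_append, pl]
    rw [ih]
    ring

section Fin

variable {J : Type*} (x r h : J → ℕ) (home : ℕ)

/-- The time when the vehicle is back at the coordinate `home`, if it is at the coordinate `p` at
time `t` and then processes the jobs of the list. -/
def fin : ℕ → ℕ → List J → ℕ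
  | t, p, [] => t + ad p home
  | t, p, j :: l => fin (max (t + ad p (x j)) (r j) + h j) (x j) l

theorem fin_ge : ∀ (l : List J) (t p : ℕ),
    t + pl p (l.map x ++ [home]) + (l.map h).sum ≤ fin x r h home t p l
  | [], t, p => by simp [fin, pl]
  | j :: l, t, p => by
    have ih := fin_ge l (max (t + ad p (x j)) (r j) + h j) (x j)
    have h1 := le_max_left (t + ad p (x j)) (r j)
    simp only [List.map_cons, List.cons_append, pl, List.sum_cons, fin]
    omega

theorem fin_ge_release : ∀ (l₁ : List J) (j : J) (l₂ : List J) (t p : ℕ),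
    r j + h j + (l₂.map h).sum ≤ fin x r h home t p (l₁ ++ j :: l₂)
  | [], j, l₂, t, p => by
    have ih := fin_ge x r h home l₂ (max (t + ad p (x j)) (r j) + h j) (x j)
    have h1 := le_max_right (t + ad p (x j)) (r j)
    simp only [List.nil_append, fin]
    omega
  | i :: l₁, j, l₂, t, p => fin_ge_release l₁ j l₂ _ _

/-- every job is released before the work of the preceding jobs (starting with `s`) is done -/
def Ok : ℕ → List J → Prop
  | _, [] => True
  | s, j :: l => r j ≤ s ∧ Ok (s + h j) l

theorem ok_append (s : ℕ) (l₁ l₂ : List J) :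
    Ok r h s (l₁ ++ l₂) ↔ Ok r h s l₁ ∧ Ok r h (s + (l₁.map h).sum) l₂ := by
  induction l₁ generalizing s with
  | nil => simp [Ok]
  | cons j l ih =>
    simp only [List.cons_append, Ok, ih, List.map_cons, List.sum_cons, and_assoc, add_assoc]

theorem fin_eq : ∀ (l : List J) (s t p : ℕ), Ok r h s l → s ≤ t →
    fin x r h home t p l = t + pl p (l.map x ++ [home]) + (l.map h).sum
  | [], s, t, p, _, _ => by simp [fin, pl]
  | j :: l, s, t, p, hok, hst => by
    have h1 : max (t + ad p (x j)) (r j) = t + ad p (x j) := max_eq_left (by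
      have := hok.1
      omega)
    have ih := fin_eq l (s + h j) (t + ad p (x j) + h j) (x j) hok.2 (by omega)
    simp only [List.map_cons, List.cons_append, pl, List.sum_cons, fin]
    rw [h1, ih]
    omega

end Fin

end Pool.Agent.J4.H59.SV
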