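import Pool.Agent.J4.H59.SV.Par

/-!
# The counting argument
-/

set_option autoImplicit false

namespace Pool.Agent.J4.H59.SV

open Finset

theorem av_inj {n k i k' i' : ℕ} (hi : i < n) (hi' : i' < n) (h : av n k' i' = av n k i) :
    k' = k ∧ i' = i := by
  have h1 := od_lt k hi
  have h2 := od_lt k' hi'
  unfold av at h
  have hk : k' = k := by
    have e1 : (k' * (n + 1) + od n k' i') / (n + 1) = k' := by
      rw [Nat.add_comm, Nat.add_mul_div_right _ _ (Nat.succ_pos n), Nat.div_eq_of_lt (by omega)]
      omega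
    have e2 : (k * (n + 1) + od n k i) / (n + 1) = k := by
      rw [Nat.add_comm, Nat.add_mul_div_right _ _ (Nat.succ_pos n), Nat.div_eq_of_lt (by omega)]
      omega
    rw [← e1, h, e2]
  subst hk
  refine ⟨rfl, ?_⟩
  have h3 : od n k' i' = od n k' i := by omega
  unfold od at h3
  split_ifs at h3 <;> omega

theorem lv_eq_av {n k i : ℕ} : lv n k i = av n (k + 1) i := rfl

/-- the times in the interval of `(k, i)` among the controlled times -/
theorem sum_dl {n m k i : ℕ} :
    (∑ e ∈ Ico n (m * (n + 1)), if av n k i < e ∧ e ≤ lv n k i then 1 else 0) = dl n m k i := by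
  rw [← Finset.sum_filter]
  have : (Ico n (m * (n + 1))).filter (fun e => av n k i < e ∧ e ≤ lv n k i) =
      Ico (max n (av n k i + 1)) (min (lv n k i + 1) (m * (n + 1))) := by
    ext e
    simp only [mem_filter, mem_Ico]
    omega
  rw [this]
  simp [dl]

theorem cover_of {n m q : ℕ} {M : ℕ → ℕ → ℕ} (hm : 1 ≤ m) (hq : q ≤ n)
    (hM : ∀ k i, M k i ≤ 1) (E : ℕ → ℕ → Prop) [∀ k i, Decidable (E k i)]
    (h1 : ∑ k ∈ range m, ∑ i ∈ range n, (if E k i then dl n m k i else 0) ≤ q * PC n m)
    (h2 : ∀ e < NN n m, DD n m q e ≤ ∑ k ∈ range m, ∑ i ∈ range n,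
      if E k i ∧ av n k i < e ∧ e ≤ lv n k i then wt n M k i else 0) :
    ∃ S : Finset ℕ, S ⊆ range n ∧ S.card = q ∧ ∀ k < m, ∃ i ∈ S, M k i ≠ 0 := by
  set act : ℕ → ℕ := fun e => ∑ k ∈ range m, ∑ i ∈ range n,
    if E k i ∧ av n k i < e ∧ e ≤ lv n k i then 1 else 0 with hact
  have hNN : m * (n + 1) ≤ NN n m := by
    unfold NN
    have : (n + 1) * (m + 1) = m * (n + 1) + (n + 1) := by ring
    omega
  -- every controlled time is covered by `q` jobs
  have ha : ∀ e ∈ Ico n (m * (n + 1)), q ≤ act e := by
    intro e he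
    rw [mem_Ico] at he
    have h3 := h2 e (by omega)
    have h4 : ∑ k ∈ range m, ∑ i ∈ range n,
        (if E k i ∧ av n k i < e ∧ e ≤ lv n k i then wt n M k i else 0) ≤ (n + 2) * act e := by
      rw [hact, Finset.mul_sum]
      refine Finset.sum_le_sum fun k _ => ?_
      rw [Finset.mul_sum]
      refine Finset.sum_le_sum fun i _ => ?_
      have := hM k i
      unfold wt
      split_ifs <;> omega
    have h5 : q * (n + 1) ≤ DD n m q e := by
      unfold DD
      rw [if_pos he]
      omega
    by_contra hcon
    have h6 : act e + 1 ≤ q := by omega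
    have h7 : (n + 2) * (act e + 1) ≤ (n + 2) * q := Nat.mul_le_mul_left _ h6
    have h8 : (n + 2) * q = q * (n + 1) + q := by ring
    have h9 : (n + 2) * (act e + 1) = (n + 2) * act e + (n + 2) := by ring
    omega
  have hb : ∑ e ∈ Ico n (m * (n + 1)), act e =
      ∑ k ∈ range m, ∑ i ∈ range n, (if E k i then dl n m k i else 0) := by
    rw [hact, Finset.sum_comm]
    refine Finset.sum_congr rfl fun k _ => ?_
    rw [Finset.sum_comm]
    refine Finset.sum_congr rfl fun i _ => ?_
    by_cases hE : E k i
    · simp only [hE, true_and, if_true]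
      exact sum_dl
    · simp [hE]
  have hc : ∀ e ∈ Ico n (m * (n + 1)), act e = q := by
    have h3 : ∑ e ∈ Ico n (m * (n + 1)), q = q * PC n m := by
      rw [Finset.sum_const, Nat.card_Ico, smul_eq_mul, mul_comm]
      rfl
    have h4 : ∑ e ∈ Ico n (m * (n + 1)), q = ∑ e ∈ Ico n (m * (n + 1)), act e :=
      le_antisymm (Finset.sum_le_sum ha) (by rw [h3, hb]; exact h1)
    intro e he
    exact ((Finset.sum_eq_sum_iff_of_le ha).1 h4 e he).symm
  -- copying
  have hd : ∀ k i, k + 1 < m → i < n → (E (k + 1) i ↔ E k i) := by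
    intro k i hk hi
    set e := av n (k + 1) i with he
    have hod := od_lt (k + 1) hi
    have he1 : e ∈ Ico n (m * (n + 1)) ∧ e + 1 ∈ Ico n (m * (n + 1)) := by
      have e1 : (k + 1 + 1) * (n + 1) ≤ m * (n + 1) := Nat.mul_le_mul_right _ hk
      have e2 : (k + 1 + 1) * (n + 1) = (k + 1) * (n + 1) + (n + 1) := by ring
      have e3 : 1 * (n + 1) ≤ (k + 1) * (n + 1) := Nat.mul_le_mul_right _ (by omega)
      rw [mem_Ico, mem_Ico, he]
      unfold av
      omega
    have h3 : act (e + 1) = act e := (hc _ he1.2).trans (hc _ he1.1).symm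
    have h4 : act (e + 1) + (∑ k' ∈ range m, ∑ i' ∈ range n,
        if E k' i' ∧ lv n k' i' = e then 1 else 0) = act e + ∑ k' ∈ range m, ∑ i' ∈ range n,
        if E k' i' ∧ av n k' i' = e then 1 else 0 := by
      simp only [hact, ← Finset.sum_add_distrib]
      refine Finset.sum_congr rfl fun k' _ => Finset.sum_congr rfl fun i' hi' => ?_
      have := av_lt_lv (k := k') (Finset.mem_range.1 hi')
      by_cases hE : E k' i'
      · simp only [hE, true_and]
        split_ifs <;> omega
      · simp [hE]
    have h5 : (∑ k' ∈ range m, ∑ i' ∈ range n, if E k' i' ∧ lv n k' i' = e then 1 else 0) =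
        if E k i then 1 else 0 := by
      rw [Finset.sum_eq_single k, Finset.sum_eq_single i]
      · rw [he, lv_eq_av]
        simp
      · intro i' hi' hne
        rw [if_neg]
        rintro ⟨_, h⟩
        exact hne (av_inj hi (Finset.mem_range.1 hi') h).2
      · intro h
        exact absurd (Finset.mem_range.2 hi) h
      · intro k' _ hne
        refine Finset.sum_eq_zero fun i' hi' => if_neg ?_
        rintro ⟨_, h⟩
        have := (av_inj hi (Finset.mem_range.1 hi') h).1
        omega
      · intro h
        exact absurd (Finset.mem_range.2 (by omega)) h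
    have h6 : (∑ k' ∈ range m, ∑ i' ∈ range n, if E k' i' ∧ av n k' i' = e then 1 else 0) =
        if E (k + 1) i then 1 else 0 := by
      rw [Finset.sum_eq_single (k + 1), Finset.sum_eq_single i]
      · rw [he]
        simp
      · intro i' hi' hne
        rw [if_neg]
        rintro ⟨_, h⟩
        exact hne (av_inj hi (Finset.mem_range.1 hi') h).2
      · intro h
        exact absurd (Finset.mem_range.2 hi) h
      · intro k' _ hne
        refine Finset.sum_eq_zero fun i' hi' => if_neg ?_
        rintro ⟨_, h⟩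
        exact hne (av_inj hi (Finset.mem_range.1 hi') h).1
      · intro h
        exact absurd (Finset.mem_range.2 hk) h
    rw [h3, h5, h6] at h4
    by_cases hE1 : E (k + 1) i <;> by_cases hE2 : E k i <;> simp [hE1, hE2] at h4 ⊢
  have he : ∀ k < m, ∀ i < n, (E k i ↔ E 0 i) := by
    intro k
    induction k with
    | zero => intro _ i _; exact Iff.rfl
    | succ k ih =>
      intro hk i hi
      exact (hd k i hk hi).trans (ih (by omega) i hi)
  -- the rows
  have hf : ∀ k < m, ∀ g : ℕ → ℕ → ℕ, (∑ k' ∈ range m, ∑ i ∈ range n,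
      if E k' i ∧ av n k' i < k * (n + 1) + n ∧ k * (n + 1) + n ≤ lv n k' i then g k' i else 0) =
      ∑ i ∈ range n, if E 0 i then g k i else 0 := by
    intro k hk g
    rw [Finset.sum_eq_single k]
    · refine Finset.sum_congr rfl fun i hi => ?_
      rw [Finset.mem_range] at hi
      have h3 := od_lt k hi
      have h4 : av n k i < k * (n + 1) + n := by unfold av; omega
      have h5 : k * (n + 1) + n ≤ lv n k i := by
        unfold lv
        have : (k + 1) * (n + 1) = k * (n + 1) + (n + 1) := by ring
        omega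
      simp only [h4, h5, and_true, he k hk i hi]
    · intro k' _ hne
      refine Finset.sum_eq_zero fun i hi => if_neg ?_
      rw [Finset.mem_range] at hi
      rintro ⟨_, h3, h4⟩
      have h5 := od_lt (k' + 1) hi
      rcases Nat.lt_or_gt_of_ne hne with h | h
      · have e1 : (k' + 1) * (n + 1) ≤ k * (n + 1) := Nat.mul_le_mul_right _ h
        unfold lv at h4
        omega
      · have e1 : (k + 1) * (n + 1) ≤ k' * (n + 1) := Nat.mul_le_mul_right _ h
        have e2 : (k + 1) * (n + 1) = k * (n + 1) + (n + 1) := by ring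
        unfold av at h3
        omega
    · intro h
      exact absurd (Finset.mem_range.2 hk) h
  have hrow : ∀ k < m, k * (n + 1) + n ∈ Ico n (m * (n + 1)) := by
    intro k hk
    have e1 : (k + 1) * (n + 1) ≤ m * (n + 1) := Nat.mul_le_mul_right _ hk
    have e2 : (k + 1) * (n + 1) = k * (n + 1) + (n + 1) := by ring
    rw [mem_Ico]
    omega
  have hcard : ((range n).filter (fun i => E 0 i)).card = q := by
    have h3 := hc _ (hrow 0 hm)
    have h4 := hf 0 hm (fun _ _ => 1)
    rw [Finset.card_filter, ← h3, ← h4]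
  refine ⟨(range n).filter (fun i => E 0 i), Finset.filter_subset _ _, hcard, ?_⟩
  intro k hk
  have h3 := h2 (k * (n + 1) + n) (by
    have := hrow k hk
    rw [mem_Ico] at this
    omega)
  rw [hf k hk (wt n M)] at h3
  have h4 : DD n m q (k * (n + 1) + n) = q * (n + 1) + 1 := by
    unfold DD
    have h5 := hrow k hk
    rw [mem_Ico] at h5
    rw [if_pos h5, if_pos]
    rw [Nat.add_comm, Nat.add_mul_mod_self_right]
    exact Nat.mod_eq_of_lt (Nat.lt_succ_self n)
  by_contra hcon
  push Not at hcon
  have h5 : ∑ i ∈ range n, (if E 0 i then wt n M k i else 0) = (n + 1) * q := by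
    rw [← hcard, Finset.card_filter, Finset.mul_sum]
    refine Finset.sum_congr rfl fun i hi => ?_
    split_ifs with hE
    · have := hcon i (Finset.mem_filter.2 ⟨hi, hE⟩)
      unfold wt
      omega
    · ring
  rw [h4, h5] at h3
  have h6 : (n + 1) * q = q * (n + 1) := by ring
  omega

end Pool.Agent.J4.H59.SV
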