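import Pool.Agent.H673R2.HardOn

/-!
# Single-vehicle scheduling on a path with release and handling times: definitions
-/

set_option autoImplicit false

namespace Pool.Agent.J4.H59.SV

open Pool.Agent.NPC

/-- An instance of the single-vehicle scheduling problem on a path, with the bound `K`. The vertices
are numbered `0, 1, …, n - 1` along the path. The instance is `(travel, jobs, start, K)`, where
* `travel` is the list of the travel times of the edges: its entry number `k` consists of the travel
  time from the vertex `k` to the vertex `k + 1` and of the travel time from `k + 1` to `k`;
* `jobs` is the list of the jobs: its entry number `j` consists of the release time and of the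
  handling time of the job at the vertex `j`;
* `start` is the start vertex;
* `K` is the bound for the completion time.
All numbers are natural numbers, encoded in binary. -/
abbrev Instance : Type := List (ℕ × ℕ) × List (ℕ × ℕ) × ℕ × ℕ

namespace Instance

/-- the travel times of the edges -/
def travel (x : Instance) : List (ℕ × ℕ) := x.1

/-- the release and handling times -/
def jobs (x : Instance) : List (ℕ × ℕ) := x.2.1

/-- the start vertex -/
def start (x : Instance) : ℕ := x.2.2.1

/-- the bound for the completion time -/
def bound (x : Instance) : ℕ := x.2.2.2

/-- The travel time from the vertex `p` to the vertex `q`: the sum of the travel times, in the right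
direction, of the edges between `p` and `q`. -/
def dist (x : Instance) (p q : ℕ) : ℕ :=
  (∑ k ∈ Finset.Ico p q, (x.travel.getD k (0, 0)).1) +
    ∑ k ∈ Finset.Ico q p, (x.travel.getD k (0, 0)).2

/-- the release time of the job at the vertex `j` -/
def release (x : Instance) (j : ℕ) : ℕ := (x.jobs.getD j (0, 0)).1

/-- the handling time of the job at the vertex `j` -/
def handling (x : Instance) (j : ℕ) : ℕ := (x.jobs.getD j (0, 0)).2

/-- If the vehicle is at the vertex `s.2` at time `s.1`, then it travels to the vertex `j`, waits
there for the release time if it is early, and processes the job; the result is the time when it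
has finished, and the vertex `j`. -/
def step (x : Instance) (s : ℕ × ℕ) (j : ℕ) : ℕ × ℕ :=
  (max (s.1 + x.dist s.2 j) (x.release j) + x.handling j, j)

/-- The completion time of the schedule `π`: the vehicle starts at time `0` at the start vertex,
processes the jobs in the order of `π` and returns to the start vertex. -/
def completion (x : Instance) (π : List ℕ) : ℕ :=
  (π.foldl x.step (0, x.start)).1 + x.dist (π.foldl x.step (0, x.start)).2 x.start

/-- The question: is there a schedule, that is an order `π` of all the vertices, whose completion
time is at most the bound? -/
def Feasible (x : Instance) : Prop :=
  ∃ π : List ℕ, π.Perm (List.range x.jobs.length) ∧ x.completion π ≤ x.bound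

/-- The instances produced by the reduction: the path has at least one vertex and one edge less than
vertices, the vehicle starts at the end `0` of the path, the travel times are symmetric and positive
and the handling times are positive. -/
structure Nice (x : Instance) : Prop where
  edges : x.travel.length + 1 = x.jobs.length
  start_eq : x.start = 0
  symm : ∀ e ∈ x.travel, e.1 = e.2
  travel_pos : ∀ e ∈ x.travel, 0 < e.1
  handling_pos : ∀ j ∈ x.jobs, 0 < j.2

/-- All the numbers of the instance (travel times, release times, handling times and the bound) are
at most the ninth power of the number of vertices. -/
structure Small (x : Instance) : Prop where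
  travel_le : ∀ e ∈ x.travel, e.1 ≤ x.jobs.length ^ 9 ∧ e.2 ≤ x.jobs.length ^ 9
  jobs_le : ∀ j ∈ x.jobs, j.1 ≤ x.jobs.length ^ 9 ∧ j.2 ≤ x.jobs.length ^ 9
  bound_le : x.bound ≤ x.jobs.length ^ 9

end Instance

end Pool.Agent.J4.H59.SV
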