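import Pool.Agent.J4.H59.SV.Defs
import Pool.Agent.J4.H59.SV.Core

/-!
# The path instance given by a sorted list of coordinates

All numbers are scaled by a large factor `Q`, and every edge gets the additional length `1`; so the
travel times are positive.
-/

set_option autoImplicit false

namespace Pool.Agent.J4.H59.SV

open Finset

/-- the instance with the coordinates `xs`, the release and handling times `js` and the bound `K`,
scaled by `Q` -/
def mkI (Q : ℕ) (xs : List ℕ) (js : List (ℕ × ℕ)) (K : ℕ) : Instance :=
  ((List.range (xs.length - 1)).map fun t =>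
      (Q * (xs.getD (t + 1) 0 - xs.getD t 0) + 1, Q * (xs.getD (t + 1) 0 - xs.getD t 0) + 1),
    js.map (fun p => (Q * p.1, Q * p.2)), 0, Q * K + (Q - 1))

section Mk

variable (Q : ℕ) (xs : List ℕ) (js : List (ℕ × ℕ)) (K : ℕ)

theorem mkI_travel_getD {t : ℕ} (ht : t < xs.length - 1) :
    (mkI Q xs js K).travel.getD t (0, 0) =
      (Q * (xs.getD (t + 1) 0 - xs.getD t 0) + 1, Q * (xs.getD (t + 1) 0 - xs.getD t 0) + 1) := by
  show (((List.range (xs.length - 1)).map fun t =>
      (Q * (xs.getD (t + 1) 0 - xs.getD t 0) + 1, Q * (xs.getD (t + 1) 0 - xs.getD t 0) + 1)).getD t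
        (0, 0)) = _
  rw [List.getD_eq_getElem _ _ (by simpa using ht)]
  simp

theorem mono_getD (hs : xs.Pairwise (· ≤ ·)) {p q : ℕ} (hpq : p ≤ q) (hq : q < xs.length) :
    xs.getD p 0 ≤ xs.getD q 0 := by
  rw [List.getD_eq_getElem _ _ (by omega), List.getD_eq_getElem _ _ hq]
  rcases Nat.eq_or_lt_of_le hpq with h | h
  · subst h; exact le_rfl
  · exact List.pairwise_iff_getElem.1 hs p q (by omega) hq h

theorem tele (hs : xs.Pairwise (· ≤ ·)) {p q : ℕ} (hpq : p ≤ q) (hq : q < xs.length) :
    ∑ t ∈ Ico p q, (Q * (xs.getD (t + 1) 0 - xs.getD t 0) + 1) =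
      Q * (xs.getD q 0 - xs.getD p 0) + (q - p) := by
  induction q, hpq using Nat.le_induction with
  | base => simp
  | succ q hpq ih =>
    rw [Finset.sum_Ico_succ_top hpq, ih (by omega)]
    have h1 := mono_getD xs hs hpq (by omega)
    have h2 := mono_getD xs hs (Nat.le_succ q) hq
    have h3 : xs.getD (q + 1) 0 - xs.getD p 0 =
        (xs.getD q 0 - xs.getD p 0) + (xs.getD (q + 1) 0 - xs.getD q 0) := by
      simp only [Nat.succ_eq_add_one] at h2
      omega
    rw [h3, mul_add]
    omega

theorem mkI_dist (hs : xs.Pairwise (· ≤ ·)) {p q : ℕ} (hp : p < xs.length) (hq : q < xs.length) :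
    (mkI Q xs js K).dist p q = Q * ad (xs.getD p 0) (xs.getD q 0) + ad p q := by
  have key : ∀ p q : ℕ, p < xs.length → q < xs.length →
      (∑ k ∈ Ico p q, ((mkI Q xs js K).travel.getD k (0, 0)).1) =
        Q * (xs.getD q 0 - xs.getD p 0) + (q - p) ∧
      (∑ k ∈ Ico p q, ((mkI Q xs js K).travel.getD k (0, 0)).2) =
        Q * (xs.getD q 0 - xs.getD p 0) + (q - p) := by
    intro p q hp hq
    rcases Nat.le_total p q with h | h
    · constructor
      · rw [← tele Q xs hs h hq]
        refine Finset.sum_congr rfl fun t ht => ?_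
        rw [mem_Ico] at ht
        rw [mkI_travel_getD _ _ _ _ (by omega)]
      · rw [← tele Q xs hs h hq]
        refine Finset.sum_congr rfl fun t ht => ?_
        rw [mem_Ico] at ht
        rw [mkI_travel_getD _ _ _ _ (by omega)]
    · rw [Finset.Ico_eq_empty (by omega)]
      have h1 := mono_getD xs hs h hp
      have h2 : xs.getD q 0 - xs.getD p 0 = 0 := by omega
      have h3 : q - p = 0 := by omega
      rw [h2, h3]
      simp
  unfold Instance.dist ad
  rw [(key p q hp hq).1, (key q p hq hp).2]
  ring

end Mk

section Conv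

variable {α : Type} (x r h : α → ℕ)

/-- the instance of a list of jobs -/
def mkJ (Q : ℕ) (vl : List α) (K : ℕ) : Instance :=
  mkI Q (vl.map x) (vl.map fun j => (r j, h j)) K

variable {x r h} {Q K : ℕ} {vl : List α} [Inhabited α]

theorem getD_map {β : Type} (f : α → β) (d : β) {p : ℕ} (hp : p < vl.length) :
    (vl.map f).getD p d = f (vl.getD p default) := by
  rw [List.getD_eq_getElem _ _ (by simpa using hp), List.getD_eq_getElem _ _ hp]
  simp

theorem release_mk {p : ℕ} (hp : p < vl.length) :
    (mkJ x r h Q vl K).release p = Q * r (vl.getD p default) := by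
  show (((vl.map fun j => (r j, h j)).map (fun p => (Q * p.1, Q * p.2))).getD p (0, 0)).1 = _
  rw [List.map_map, getD_map _ _ hp]
  rfl

theorem handling_mk {p : ℕ} (hp : p < vl.length) :
    (mkJ x r h Q vl K).handling p = Q * h (vl.getD p default) := by
  show (((vl.map fun j => (r j, h j)).map (fun p => (Q * p.1, Q * p.2))).getD p (0, 0)).2 = _
  rw [List.map_map, getD_map _ _ hp]
  rfl

theorem dist_mk (hs : vl.Pairwise (fun a b => x a ≤ x b)) {p q : ℕ} (hp : p < vl.length)
    (hq : q < vl.length) : (mkJ x r h Q vl K).dist p q =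
      Q * ad (x (vl.getD p default)) (x (vl.getD q default)) + ad p q := by
  unfold mkJ
  rw [mkI_dist Q _ _ K (List.pairwise_map.2 hs) (by simpa using hp) (by simpa using hq),
    getD_map x 0 hp, getD_map x 0 hq]

theorem fold_bounds (hs : vl.Pairwise (fun a b => x a ≤ x b)) (h0 : 0 < vl.length)
    (hx0 : x (vl.getD 0 default) = 0) : ∀ (π : List ℕ), (∀ p ∈ π, p < vl.length) →
    ∀ (T T' c p : ℕ), p < vl.length → Q * T ≤ T' → T' ≤ Q * T + c →
    Q * fin x r h 0 T (x (vl.getD p default)) (π.map fun p => vl.getD p default) ≤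
      (π.foldl (mkJ x r h Q vl K).step (T', p)).1 +
        (mkJ x r h Q vl K).dist (π.foldl (mkJ x r h Q vl K).step (T', p)).2 0 ∧
    (π.foldl (mkJ x r h Q vl K).step (T', p)).1 +
        (mkJ x r h Q vl K).dist (π.foldl (mkJ x r h Q vl K).step (T', p)).2 0 ≤
      Q * fin x r h 0 T (x (vl.getD p default)) (π.map fun p => vl.getD p default) + c +
        (π.length + 1) * vl.length
  | [], _, T, T', c, p, hp, h1, h2 => by
    simp only [List.foldl_nil, List.map_nil, fin, List.length_nil, Nat.zero_add, one_mul]
    rw [dist_mk hs hp h0, hx0, mul_add]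
    have : ad p 0 ≤ vl.length := by unfold ad; omega
    constructor <;> omega
  | j :: π, hπ, T, T', c, p, hp, h1, h2 => by
    have hj : j < vl.length := hπ j (by simp)
    simp only [List.foldl_cons, List.map_cons, fin]
    have hstep : (mkJ x r h Q vl K).step (T', p) j =
        (max (T' + (Q * ad (x (vl.getD p default)) (x (vl.getD j default)) + ad p j))
          (Q * r (vl.getD j default)) + Q * h (vl.getD j default), j) := by
      unfold Instance.step
      simp only
      rw [dist_mk hs hp hj, release_mk hj, handling_mk hj]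
    rw [hstep]
    have had : ad p j ≤ vl.length := by unfold ad; omega
    set a := ad (x (vl.getD p default)) (x (vl.getD j default)) with ha
    set ρ := r (vl.getD j default) with hρ
    set η := h (vl.getD j default) with hη
    have e0 : Q * max (T + a) ρ = max (Q * (T + a)) (Q * ρ) := by
      rcases le_total (T + a) ρ with h' | h'
      · rw [max_eq_right h', max_eq_right (Nat.mul_le_mul_left _ h')]
      · rw [max_eq_left h', max_eq_left (Nat.mul_le_mul_left _ h')]
    have e1 : Q * (max (T + a) ρ + η) = max (Q * T + Q * a) (Q * ρ) + Q * η := by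
      rw [mul_add, e0, mul_add]
    have ih := fold_bounds hs h0 hx0 π (fun p hp => hπ p (by simp [hp])) (max (T + a) ρ + η)
      (max (T' + (Q * a + ad p j)) (Q * ρ) + Q * η) (c + vl.length) j hj
      (by rw [e1]; omega) (by rw [e1]; omega)
    refine ⟨ih.1, ih.2.trans ?_⟩
    have e2 : (π.length + 1 + 1) * vl.length = (π.length + 1) * vl.length + vl.length := by ring
    simp only [List.length_cons]
    omega

/-- feasibility of the path instance -/
theorem feasible_mk [DecidableEq α] (hs : vl.Pairwise (fun a b => x a ≤ x b)) (hnd : vl.Nodup)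
    (h0 : 0 < vl.length) (hx0 : x (vl.getD 0 default) = 0)
    (hQ : (vl.length + 1) * vl.length < Q) :
    (mkJ x r h Q vl K).Feasible ↔
      ∃ π : List α, π.Nodup ∧ (∀ j, j ∈ π ↔ j ∈ vl) ∧ fin x r h 0 0 0 π ≤ K := by
  have hlen : (mkJ x r h Q vl K).jobs.length = vl.length := by
    show ((vl.map fun j => (r j, h j)).map (fun p => (Q * p.1, Q * p.2))).length = _
    simp
  have hmapr : (List.range vl.length).map (fun p => vl.getD p default) = vl := by
    apply List.ext_getElem
    · simp
    · intro i h1 h2
      simp [h2]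
  constructor
  · rintro ⟨π, hπ, hC⟩
    rw [hlen] at hπ
    have hlt : ∀ p ∈ π, p < vl.length := fun p hp => List.mem_range.1 (hπ.mem_iff.1 hp)
    have h1 := fold_bounds (r := r) (h := h) (Q := Q) (K := K) hs h0 hx0 π hlt 0 0 0 0 h0
      (by simp) (by simp)
    rw [hx0] at h1
    refine ⟨π.map fun p => vl.getD p default, ?_, ?_, ?_⟩
    · have h2 : (π.map fun p => vl.getD p default).Perm vl := by
        have := hπ.map (fun p => vl.getD p default)
        rwa [hmapr] at this
      exact h2.nodup_iff.2 hnd
    · intro j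
      have h2 : (π.map fun p => vl.getD p default).Perm vl := by
        have := hπ.map (fun p => vl.getD p default)
        rwa [hmapr] at this
      exact h2.mem_iff
    · have h3 : (mkJ x r h Q vl K).completion π ≤ Q * K + (Q - 1) := hC
      have h4 := h1.1.trans h3
      by_contra hcon
      have h5 : K + 1 ≤ fin x r h 0 0 0 (π.map fun p => vl.getD p default) := by omega
      have h6 : Q * (K + 1) ≤ _ := Nat.mul_le_mul_left Q h5
      have h7 : Q * (K + 1) = Q * K + Q := by ring
      omega
  · rintro ⟨π, hnd', hmem, hC⟩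
    have hperm : π.Perm vl := (List.perm_ext_iff_of_nodup hnd' hnd).2 hmem
    have hidx : vl.map (fun j => vl.idxOf j) = List.range vl.length := by
      apply List.ext_getElem
      · simp
      · intro i h1 h2
        simp only [List.getElem_map, List.getElem_range]
        exact List.Nodup.idxOf_getElem hnd _ _
    have h2 : (π.map fun j => vl.idxOf j).Perm (List.range vl.length) := by
      have := hperm.map (fun j => vl.idxOf j)
      rwa [hidx] at this
    have h3 : (π.map fun j => vl.idxOf j).map (fun p => vl.getD p default) = π := by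
      rw [List.map_map]
      conv_rhs => rw [← List.map_id π]
      refine List.map_congr_left fun j hj => ?_
      have hjl : vl.idxOf j < vl.length := List.idxOf_lt_length_iff.2 ((hmem j).1 hj)
      show vl.getD (vl.idxOf j) default = j
      rw [List.getD_eq_getElem _ _ hjl]
      exact List.getElem_idxOf hjl
    refine ⟨π.map fun j => vl.idxOf j, by rw [hlen]; exact h2, ?_⟩
    have hlt : ∀ p ∈ π.map (fun j => vl.idxOf j), p < vl.length := fun p hp =>
      List.mem_range.1 (h2.mem_iff.1 hp)
    have h1 := (fold_bounds (r := r) (h := h) (Q := Q) (K := K) hs h0 hx0 _ hlt 0 0 0 0 h0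
      (by simp) (by simp)).2
    rw [hx0, h3] at h1
    have h4 : (mkJ x r h Q vl K).completion (π.map fun j => vl.idxOf j) ≤
        Q * fin x r h 0 0 0 π + 0 + ((π.map fun j => vl.idxOf j).length + 1) * vl.length := h1
    have h5 : (π.map fun j => vl.idxOf j).length = vl.length := by
      rw [List.length_map]; exact hperm.length_eq
    rw [h5] at h4
    have h6 : Q * fin x r h 0 0 0 π ≤ Q * K := Nat.mul_le_mul_left Q hC
    have h7 : (mkJ x r h Q vl K).bound = Q * K + (Q - 1) := rfl
    rw [h7]
    omega

end Conv

end Pool.Agent.J4.H59.SV
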