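import Pool.Agent.J4.H59.SV.Comp
import Pool.Agent.J4.H59.SV.Mk

/-!
# The vertices of the path
-/

set_option autoImplicit false

namespace Pool.Agent.J4.H59.SV

open Finset

instance : Inhabited Job := ⟨.big 0⟩

/-- the detours of the even rows -/
theorem dl_even {n s a i : ℕ} (ha : a < s) (hi : i < n) :
    dl n (2 * s) (2 * a) i = if a = 0 then n + 1 - i else 2 * n - 2 * i := by
  have h1 : od n (2 * a) i = i := by unfold od; rw [if_pos (by omega)]
  have h2 : od n (2 * a + 1) i = n - 1 - i := by unfold od; rw [if_neg (by omega)]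
  unfold dl av lv
  rw [h1, h2]
  have e1 : 2 * a * (n + 1) = 2 * (a * (n + 1)) := by ring
  have e2 : (2 * a + 1) * (n + 1) = 2 * (a * (n + 1)) + (n + 1) := by ring
  have e3 : 2 * s * (n + 1) = 2 * (s * (n + 1)) := by ring
  have e4 : (a + 1) * (n + 1) ≤ s * (n + 1) := Nat.mul_le_mul_right _ ha
  have e5 : (a + 1) * (n + 1) = a * (n + 1) + (n + 1) := by ring
  rw [e1, e2, e3]
  split_ifs with h
  · subst h
    omega
  · have e6 : 1 * (n + 1) ≤ a * (n + 1) := Nat.mul_le_mul_right _ (by omega)
    omega

/-- the detours of the odd rows -/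
theorem dl_odd {n s a i : ℕ} (ha : a < s) (hi : i < n) :
    dl n (2 * s) (2 * a + 1) i = if a + 1 = s then i + 1 else 2 * i + 2 := by
  have h1 : od n (2 * a + 1) i = n - 1 - i := by unfold od; rw [if_neg (by omega)]
  have h2 : od n (2 * a + 1 + 1) i = i := by unfold od; rw [if_pos (by omega)]
  unfold dl av lv
  rw [h1, h2]
  have e1 : (2 * a + 1 + 1) * (n + 1) = 2 * (a * (n + 1)) + 2 * (n + 1) := by ring
  have e2 : (2 * a + 1) * (n + 1) = 2 * (a * (n + 1)) + (n + 1) := by ring
  have e3 : 2 * s * (n + 1) = 2 * (s * (n + 1)) := by ring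
  have e4 : (a + 1) * (n + 1) ≤ s * (n + 1) := Nat.mul_le_mul_right _ ha
  have e5 : (a + 1) * (n + 1) = a * (n + 1) + (n + 1) := by ring
  rw [e1, e2, e3]
  split_ifs with h
  · subst h
    omega
  · have e6 : (a + 2) * (n + 1) ≤ s * (n + 1) := Nat.mul_le_mul_right _ (by omega)
    have e7 : (a + 2) * (n + 1) = a * (n + 1) + 2 * (n + 1) := by ring
    omega

/-- the vertices at the left end -/
def leftJ (n s : ℕ) : List Job := (List.range s).map fun t => .big ((2 * t + 1) * (n + 1) + n)

/-- the vertices at the site `i` -/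
def blockJ (n s i : ℕ) : List Job :=
  ((List.range s).map fun t => .small (2 * (s - 1 - t)) i) ++
    (((List.range (2 * s + 1)).map fun k => .big (k * (n + 1) + od n k i)) ++
      (List.range s).map fun t => .small (2 * (s - 1 - t) + 1) i)

/-- the vertices at the right end -/
def rightJ (n s : ℕ) : List Job := (List.range (s + 1)).map fun t => .big (2 * t * (n + 1) + n)

/-- the vertices in the order of the path -/
def vlJ (n s : ℕ) : List Job := leftJ n s ++ ((List.range n).flatMap (blockJ n s) ++ rightJ n s)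

theorem xx_left {n s : ℕ} {j : Job} (hj : j ∈ leftJ n s) : xx n (2 * s) j = 0 := by
  obtain ⟨t, -, rfl⟩ := List.mem_map.1 hj
  rw [xx_big le_rfl, if_neg (by omega)]
  simp

theorem xx_right {n s : ℕ} {j : Job} (hj : j ∈ rightJ n s) :
    xx n (2 * s) j = (n + 1) * Lam n := by
  obtain ⟨t, -, rfl⟩ := List.mem_map.1 hj
  rw [xx_big le_rfl, if_pos (by omega)]

theorem xx_mid {n s k i : ℕ} (hi : i < n) :
    xx n (2 * s) (.big (k * (n + 1) + od n k i)) = (i + 1) * Lam n := by
  rw [xx_big (od_lt k hi).le]
  split_ifs with hk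
  · have : od n k i = i := by unfold od; rw [if_pos hk]
    rw [this]
  · have : od n k i = n - 1 - i := by unfold od; rw [if_neg hk]
    rw [this]
    congr 1
    omega

theorem mem_blockJ {n s i : ℕ} {j : Job} : j ∈ blockJ n s i ↔
    (∃ t < s, j = .small (2 * (s - 1 - t)) i) ∨ (∃ k < 2 * s + 1, j = .big (k * (n + 1) + od n k i)) ∨
      ∃ t < s, j = .small (2 * (s - 1 - t) + 1) i := by
  unfold blockJ
  simp only [List.mem_append, List.mem_map, List.mem_range, eq_comm]

theorem xx_block {n s i : ℕ} (hi : i < n) {j : Job} (hj : j ∈ blockJ n s i) :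
    (i + 1) * Lam n ≤ xx n (2 * s) j + 2 * n ∧ xx n (2 * s) j ≤ (i + 1) * Lam n + 2 * n := by
  rw [mem_blockJ] at hj
  rcases hj with ⟨t, _, rfl⟩ | ⟨k, _, rfl⟩ | ⟨t, _, rfl⟩
  · have := dl_le (m := 2 * s) (k := 2 * (s - 1 - t)) hi
    rw [xx_small, if_pos (by omega)]
    omega
  · rw [xx_mid hi]
    omega
  · have := dl_le (m := 2 * s) (k := 2 * (s - 1 - t) + 1) hi
    rw [xx_small, if_neg (by omega)]
    omega

theorem lam_succ (n a b : ℕ) (h : a < b) : (a + 1) * Lam n + (4 * n + 4) ≤ (b + 1) * Lam n := by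
  have h1 : (a + 1 + 1) * Lam n ≤ (b + 1) * Lam n := Nat.mul_le_mul_right _ (by omega)
  have h2 : (a + 1 + 1) * Lam n = (a + 1) * Lam n + Lam n := by ring
  have h3 : Lam n = 4 * n + 4 := rfl
  omega

theorem block_sorted {n s i : ℕ} (hi : i < n) :
    (blockJ n s i).Pairwise (fun a b => xx n (2 * s) a ≤ xx n (2 * s) b) := by
  unfold blockJ
  rw [List.pairwise_append, List.pairwise_append]
  refine ⟨?_, ⟨?_, ?_, ?_⟩, ?_⟩
  · rw [List.pairwise_map]
    refine List.pairwise_lt_range.imp_of_mem ?_
    intro a b ha hb hab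
    rw [List.mem_range] at ha hb
    rw [xx_small, xx_small, if_pos (by omega), if_pos (by omega), dl_even (by omega) hi,
      dl_even (by omega) hi]
    split_ifs <;> omega
  · rw [List.pairwise_map]
    refine List.pairwise_lt_range.imp_of_mem ?_
    intro a b ha hb hab
    rw [xx_mid hi, xx_mid hi]
  · rw [List.pairwise_map]
    refine List.pairwise_lt_range.imp_of_mem ?_
    intro a b ha hb hab
    rw [List.mem_range] at ha hb
    rw [xx_small, xx_small, if_neg (by omega), if_neg (by omega), dl_odd (by omega) hi,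
      dl_odd (by omega) hi]
    split_ifs <;> omega
  · intro a ha b hb
    obtain ⟨k, -, rfl⟩ := List.mem_map.1 ha
    obtain ⟨t, -, rfl⟩ := List.mem_map.1 hb
    rw [xx_mid hi, xx_small, if_neg (by omega)]
    omega
  · intro a ha b hb
    obtain ⟨t, -, rfl⟩ := List.mem_map.1 ha
    rw [xx_small, if_pos (by omega)]
    rcases List.mem_append.1 hb with hb | hb
    · obtain ⟨k, -, rfl⟩ := List.mem_map.1 hb
      rw [xx_mid hi]
      omega
    · obtain ⟨t', -, rfl⟩ := List.mem_map.1 hb
      rw [xx_small, if_neg (by omega)]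
      omega

theorem vl_sorted (n s : ℕ) :
    (vlJ n s).Pairwise (fun a b => xx n (2 * s) a ≤ xx n (2 * s) b) := by
  unfold vlJ
  rw [List.pairwise_append, List.pairwise_append, List.pairwise_flatMap]
  refine ⟨?_, ⟨⟨?_, ?_⟩, ?_, ?_⟩, ?_⟩
  · exact List.pairwise_of_forall_mem_list (by
      intro a ha b hb
      rw [xx_left ha]
      exact Nat.zero_le _)
  · intro i hi
    exact block_sorted (List.mem_range.1 hi)
  · refine List.pairwise_lt_range.imp_of_mem ?_
    intro a b ha hb hab x hx y hy
    rw [List.mem_range] at ha hb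
    have h1 := (xx_block ha hx).2
    have h2 := (xx_block hb hy).1
    have h3 := lam_succ n a b hab
    omega
  · exact List.pairwise_of_forall_mem_list (by
      intro a ha b hb
      rw [xx_right ha, xx_right hb])
  · intro a ha b hb
    obtain ⟨i, hi, ha⟩ := List.mem_flatMap.1 ha
    rw [List.mem_range] at hi
    have h1 := (xx_block hi ha).2
    have h3 := lam_succ n i n hi
    rw [xx_right hb]
    omega
  · intro a ha b hb
    rw [xx_left ha]
    exact Nat.zero_le _

theorem block_nodup {n s i : ℕ} (hi : i < n) : (blockJ n s i).Nodup := by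
  unfold blockJ
  rw [List.nodup_append, List.nodup_append]
  refine ⟨?_, ⟨?_, ?_, ?_⟩, ?_⟩
  · refine List.Nodup.map_on ?_ List.nodup_range
    intro a ha b hb h
    rw [List.mem_range] at ha hb
    simp only [Job.small.injEq] at h
    omega
  · refine List.Nodup.map_on ?_ List.nodup_range
    intro a ha b hb h
    simp only [Job.big.injEq] at h
    exact (av_inj hi hi h).1
  · refine List.Nodup.map_on ?_ List.nodup_range
    intro a ha b hb h
    rw [List.mem_range] at ha hb
    simp only [Job.small.injEq] at h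
    omega
  · intro a ha b hb h
    obtain ⟨k, -, rfl⟩ := List.mem_map.1 ha
    obtain ⟨t, -, rfl⟩ := List.mem_map.1 hb
    simp at h
  · intro a ha b hb h
    obtain ⟨t, -, rfl⟩ := List.mem_map.1 ha
    rcases List.mem_append.1 hb with hb | hb
    · obtain ⟨k, -, rfl⟩ := List.mem_map.1 hb
      simp at h
    · obtain ⟨t', -, rfl⟩ := List.mem_map.1 hb
      simp only [Job.small.injEq] at h
      omega

theorem vl_nodup (n s : ℕ) : (vlJ n s).Nodup := by
  unfold vlJ
  rw [List.nodup_append, List.nodup_append, List.nodup_flatMap]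
  refine ⟨?_, ⟨⟨?_, ?_⟩, ?_, ?_⟩, ?_⟩
  · refine List.Nodup.map_on ?_ List.nodup_range
    intro a ha b hb h
    simp only [Job.big.injEq] at h
    have h1 : (2 * a + 1) * (n + 1) = (2 * b + 1) * (n + 1) := by omega
    have := Nat.eq_of_mul_eq_mul_right (Nat.succ_pos n) h1
    omega
  · intro i hi
    exact block_nodup (List.mem_range.1 hi)
  · refine List.pairwise_lt_range.imp_of_mem ?_
    intro a b ha hb hab
    rw [List.mem_range] at ha hb
    show List.Disjoint _ _
    intro x hx hy
    have h1 := (xx_block ha hx).2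
    have h2 := (xx_block hb hy).1
    have h3 := lam_succ n a b hab
    omega
  · refine List.Nodup.map_on ?_ List.nodup_range
    intro a ha b hb h
    simp only [Job.big.injEq] at h
    have h1 : (2 * a) * (n + 1) = (2 * b) * (n + 1) := by omega
    have := Nat.eq_of_mul_eq_mul_right (Nat.succ_pos n) h1
    omega
  · intro a ha b hb h
    obtain ⟨i, hi, ha⟩ := List.mem_flatMap.1 ha
    rw [List.mem_range] at hi
    have h1 := (xx_block hi ha).2
    have h3 := lam_succ n i n hi
    have h4 := xx_right hb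
    rw [← h] at h4
    omega
  · intro a ha b hb h
    have h1 := xx_left ha
    rw [h] at h1
    have hL : 4 * n + 4 ≤ (n + 1) * Lam n := by
      have : 1 * Lam n ≤ (n + 1) * Lam n := Nat.mul_le_mul_right _ (by omega)
      have h3 : Lam n = 4 * n + 4 := rfl
      omega
    rcases List.mem_append.1 hb with hb | hb
    · obtain ⟨i, hi, hb⟩ := List.mem_flatMap.1 hb
      rw [List.mem_range] at hi
      have h2 := (xx_block hi hb).1
      have h4 : 1 * Lam n ≤ (i + 1) * Lam n := Nat.mul_le_mul_right _ (by omega)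
      have h3 : Lam n = 4 * n + 4 := rfl
      omega
    · have h2 := xx_right hb
      omega

theorem mem_vl {n s : ℕ} (j : Job) : j ∈ vlJ n s ↔ Valid n (2 * s) j := by
  have hN : ∀ k o, k * (n + 1) + o < NN n (2 * s) ↔ k * (n + 1) + o < (2 * s + 1) * (n + 1) := by
    intro k o
    unfold NN
    rw [mul_comm (n + 1) (2 * s + 1)]
  have hko : ∀ k o, o ≤ n → (k * (n + 1) + o < NN n (2 * s) ↔ k < 2 * s + 1) := by
    intro k o ho
    rw [hN]
    constructor
    · intro h
      by_contra hcon
      have : (2 * s + 1) * (n + 1) ≤ k * (n + 1) := Nat.mul_le_mul_right _ (by omega)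
      omega
    · intro h
      have : (k + 1) * (n + 1) ≤ (2 * s + 1) * (n + 1) := Nat.mul_le_mul_right _ h
      have e : (k + 1) * (n + 1) = k * (n + 1) + (n + 1) := by ring
      omega
  unfold vlJ
  rw [List.mem_append, List.mem_append, List.mem_flatMap]
  constructor
  · rintro (h | ⟨i, hi, h⟩ | h)
    · obtain ⟨t, ht, rfl⟩ := List.mem_map.1 h
      rw [List.mem_range] at ht
      exact (hko _ _ le_rfl).2 (by omega)
    · rw [List.mem_range] at hi
      rw [mem_blockJ] at h
      rcases h with ⟨t, ht, rfl⟩ | ⟨k, hk, rfl⟩ | ⟨t, ht, rfl⟩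
      · exact ⟨by omega, hi⟩
      · exact (hko _ _ (od_lt k hi).le).2 hk
      · exact ⟨by omega, hi⟩
    · obtain ⟨t, ht, rfl⟩ := List.mem_map.1 h
      rw [List.mem_range] at ht
      exact (hko _ _ le_rfl).2 (by omega)
  · intro hv
    cases j with
    | big e =>
      obtain ⟨k, o, ho, rfl⟩ := exists_ko n e
      have hk := (hko _ _ ho).1 hv
      rcases Nat.eq_or_lt_of_le ho with h | h
      · subst h
        rcases Nat.mod_two_eq_zero_or_one k with hk2 | hk2
        · right; right
          refine List.mem_map.2 ⟨k / 2, List.mem_range.2 (by omega), ?_⟩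
          have : 2 * (k / 2) = k := by omega
          rw [this]
        · left
          refine List.mem_map.2 ⟨k / 2, List.mem_range.2 (by omega), ?_⟩
          have : 2 * (k / 2) + 1 = k := by omega
          rw [this]
      · right; left
        refine ⟨od n k o, List.mem_range.2 (od_lt k h), ?_⟩
        rw [mem_blockJ]
        right; left
        refine ⟨k, hk, ?_⟩
        rw [od_od h]
    | small k i =>
      right; left
      refine ⟨i, List.mem_range.2 hv.2, ?_⟩
      rw [mem_blockJ]
      have hk : k < 2 * s := hv.1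
      rcases Nat.mod_two_eq_zero_or_one k with hk2 | hk2
      · left
        refine ⟨s - 1 - k / 2, by omega, ?_⟩
        have : 2 * (s - 1 - (s - 1 - k / 2)) = k := by omega
        rw [this]
      · right; right
        refine ⟨s - 1 - k / 2, by omega, ?_⟩
        have : 2 * (s - 1 - (s - 1 - k / 2)) + 1 = k := by omega
        rw [this]

theorem vl_length (n s : ℕ) : (vlJ n s).length = 2 * s + 1 + n * (4 * s + 1) := by
  unfold vlJ leftJ rightJ
  rw [List.length_append, List.length_append, List.length_flatMap]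
  have : (List.range n).map (fun i => (blockJ n s i).length) =
      (List.range n).map (fun _ => 4 * s + 1) := by
    refine List.map_congr_left fun i _ => ?_
    unfold blockJ
    simp
    ring
  rw [this]
  simp
  ring

theorem vl_zero {n s : ℕ} (hs : 0 < s) : xx n (2 * s) ((vlJ n s).getD 0 default) = 0 := by
  have h : (vlJ n s).getD 0 default ∈ leftJ n s := by
    unfold vlJ leftJ
    obtain ⟨s', rfl⟩ : ∃ s', s = s' + 1 := ⟨s - 1, by omega⟩
    rw [List.range_succ_eq_map]
    simp
  exact xx_left h

/-- the path instance -/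
def pathI (Q n s q : ℕ) (M : ℕ → ℕ → ℕ) : Instance :=
  mkJ (xx n (2 * s)) (rr n (2 * s) q M) (hh n (2 * s) q M) Q (vlJ n s) (KK n (2 * s) q M)

theorem pathI_iff {Q n s q : ℕ} {M : ℕ → ℕ → ℕ} (hs : 0 < s) (hq : q ≤ n)
    (hM : ∀ k i, M k i ≤ 1) (hQ : ((vlJ n s).length + 1) * (vlJ n s).length < Q) :
    (pathI Q n s q M).Feasible ↔
      ∃ S : Finset ℕ, S ⊆ range n ∧ S.card = q ∧ ∀ k < 2 * s, ∃ i ∈ S, M k i ≠ 0 := by
  unfold pathI
  rw [feasible_mk (vl_sorted n s) (vl_nodup n s) (by rw [vl_length]; omega) (vl_zero hs) hQ]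
  constructor
  · rintro ⟨π, hnd, hmem, hC⟩
    exact Sch.solution (π := π) (M := M) (q := q) ⟨hnd, fun j => (hmem j).trans (mem_vl j), hC⟩
      (by omega) (by omega) hq hM
  · rintro ⟨S, h1, h2, h3⟩
    obtain ⟨π, H⟩ := exists_sch (m := 2 * s) (M := M) (by omega) h1 h2 h3
    exact ⟨π, H.nd, fun j => (H.mem j).trans (mem_vl j).symm, H.bd⟩

end Pool.Agent.J4.H59.SV
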