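import Pool.Agent.J4.H59.SV.Core

/-!
# The instance built from a covering problem

There are `n` sites, `m` rows (an even number) and the bound `q`. The matrix `M k i ∈ {0, 1}` tells
whether the row `k` is hit by the site `i`.
-/

set_option autoImplicit false

namespace Pool.Agent.J4.H59.SV

open Finset

/-- The jobs: `big e` is the job of the clock at time `e`, and `small k i` is the job of the row `k`
at the site `i`. -/
inductive Job : Type
  | big (e : ℕ) : Job
  | small (k i : ℕ) : Job
  deriving DecidableEq

/-- the distance of neighbouring sites -/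
def Lam (n : ℕ) : ℕ := 4 * n + 4

/-- the place of the site `i` in the sweep `k` -/
def od (n k i : ℕ) : ℕ := if k % 2 = 0 then i else n - 1 - i

/-- the time after which the job `(k, i)` is released -/
def av (n k i : ℕ) : ℕ := k * (n + 1) + od n k i

/-- the last time before the job `(k, i)` is passed again -/
def lv (n k i : ℕ) : ℕ := (k + 1) * (n + 1) + od n (k + 1) i

/-- the number of clock jobs -/
def NN (n m : ℕ) : ℕ := (n + 1) * (m + 1)

/-- the size of a small job -/
def wt (n : ℕ) (M : ℕ → ℕ → ℕ) (k i : ℕ) : ℕ := n + 1 + M k i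

/-- the number of controlled times -/
def PC (n m : ℕ) : ℕ := m * (n + 1) - n

/-- the length of the detour for the job `(k, i)`: the number of the controlled times `e` with
`av k i < e ≤ lv k i` -/
def dl (n m k i : ℕ) : ℕ := min (lv n k i + 1) (m * (n + 1)) - max n (av n k i + 1)

/-- the demand at the time `e` -/
def DD (n m q e : ℕ) : ℕ :=
  if n ≤ e ∧ e < m * (n + 1) then q * (n + 1) + (if e % (n + 1) = n then 1 else 0) else 0

/-- the work passed before the time `e` -/
def FF (n m : ℕ) (M : ℕ → ℕ → ℕ) (e : ℕ) : ℕ :=
  ∑ k ∈ range m, ∑ i ∈ range n, if lv n k i < e then wt n M k i else 0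

/-- the total work of the small jobs -/
def WT (n m : ℕ) (M : ℕ → ℕ → ℕ) : ℕ := ∑ k ∈ range m, ∑ i ∈ range n, wt n M k i

/-- the length of the tour without detours -/
def TT (n m : ℕ) : ℕ := NN n m * Lam n + (n + 1) * Lam n

/-- the budget for the detours -/
def XX (n m q : ℕ) : ℕ := 2 * (q * PC n m)

/-- the unit of the handling times of the small jobs -/
def GG (n m q : ℕ) : ℕ := TT n m + XX n m q + 1

/-- the handling time of the clock jobs -/
def BB (n m q : ℕ) (M : ℕ → ℕ → ℕ) : ℕ := GG n m q * WT n m M + TT n m + XX n m q + 1

/-- the bound for the completion time -/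
def KK (n m q : ℕ) (M : ℕ → ℕ → ℕ) : ℕ :=
  BB n m q M * NN n m + GG n m q * WT n m M + TT n m + XX n m q

/-- the coordinates -/
def xx (n m : ℕ) : Job → ℕ
  | .big e => if (e / (n + 1)) % 2 = 0 then (e % (n + 1) + 1) * Lam n else (n - e % (n + 1)) * Lam n
  | .small k i => if k % 2 = 0 then (i + 1) * Lam n - dl n m k i else (i + 1) * Lam n + dl n m k i

/-- the release times -/
def rr (n m q : ℕ) (M : ℕ → ℕ → ℕ) : Job → ℕ
  | .big e => BB n m q M * e + GG n m q * (FF n m M e + DD n m q e)
  | .small k i => BB n m q M * (av n k i + 1)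

/-- the handling times -/
def hh (n m q : ℕ) (M : ℕ → ℕ → ℕ) : Job → ℕ
  | .big _ => BB n m q M
  | .small k i => GG n m q * wt n M k i

/-- the jobs of the instance -/
def Valid (n m : ℕ) : Job → Prop
  | .big e => e < NN n m
  | .small k i => k < m ∧ i < n

theorem od_lt {n i : ℕ} (k : ℕ) (hi : i < n) : od n k i < n := by
  unfold od; split_ifs <;> omega

theorem od_succ {n i : ℕ} (k : ℕ) (hi : i < n) : od n (k + 1) i = n - 1 - od n k i := by
  unfold od; split_ifs <;> omega

theorem lv_lt {n m k i : ℕ} (hk : k < m) (hi : i < n) : lv n k i < NN n m := by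
  have h1 := od_lt (k + 1) hi
  have h2 : (k + 1) * (n + 1) ≤ m * (n + 1) := Nat.mul_le_mul_right _ hk
  unfold lv NN
  have h3 : (n + 1) * (m + 1) = m * (n + 1) + (n + 1) := by ring
  omega

theorem av_lt_lv {n k i : ℕ} (hi : i < n) : av n k i < lv n k i := by
  have h1 := od_lt k hi
  unfold av lv
  have h3 : (k + 1) * (n + 1) = k * (n + 1) + (n + 1) := by ring
  omega

theorem dl_le {n m k i : ℕ} (hi : i < n) : dl n m k i ≤ 2 * n := by
  have h1 := od_lt k hi
  have h2 := od_succ k hi
  unfold dl av lv
  have h3 : (k + 1) * (n + 1) = k * (n + 1) + (n + 1) := by ring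
  rw [h2, h3]
  omega

/-- the sum over a list of jobs -/
theorem list_sum {n m : ℕ} (f : Job → ℕ) : ∀ (l : List Job), l.Nodup → (∀ j ∈ l, Valid n m j) →
    (l.map f).sum = (∑ e ∈ range (NN n m), if Job.big e ∈ l then f (.big e) else 0) +
      ∑ k ∈ range m, ∑ i ∈ range n, if Job.small k i ∈ l then f (.small k i) else 0
  | [], _, _ => by simp
  | j :: l, hnd, hv => by
    have ih := list_sum f l (List.nodup_cons.1 hnd).2 (fun j' hj' => hv j' (List.mem_cons_of_mem _ hj'))
    have hj : j ∉ l := (List.nodup_cons.1 hnd).1
    have hvj := hv j List.mem_cons_self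
    have h1 : ∀ j', (if j' ∈ j :: l then f j' else 0) =
        (if j' = j then f j else 0) + (if j' ∈ l then f j' else 0) := by
      intro j'
      by_cases h : j' = j
      · subst h
        simp [hj]
      · simp [h]
    simp only [h1, List.map_cons, List.sum_cons, ih, Finset.sum_add_distrib]
    cases j with
    | big e =>
      have e1 : ∑ e' ∈ range (NN n m), (if Job.big e' = Job.big e then f (.big e) else 0) =
          f (.big e) := by
        rw [Finset.sum_eq_single e]
        · simp
        · intro b _ hb
          simp [hb]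
        · intro h
          exact absurd (Finset.mem_range.2 hvj) h
      have e2 : ∑ k ∈ range m, ∑ i ∈ range n,
          (if Job.small k i = Job.big e then f (.big e) else 0) = 0 := by simp
      rw [e1, e2]
      ring
    | small k i =>
      have e1 : ∑ e' ∈ range (NN n m), (if Job.big e' = Job.small k i then f (.small k i) else 0) =
          0 := by simp
      have e2 : ∑ k' ∈ range m, ∑ i' ∈ range n,
          (if Job.small k' i' = Job.small k i then f (.small k i) else 0) = f (.small k i) := by
        rw [Finset.sum_eq_single k, Finset.sum_eq_single i]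
        · simp
        · intro b _ hb
          simp [hb]
        · intro h
          exact absurd (Finset.mem_range.2 hvj.2) h
        · intro b _ hb
          refine Finset.sum_eq_zero fun i' _ => ?_
          simp [hb]
        · intro h
          exact absurd (Finset.mem_range.2 hvj.1) h
      rw [e1, e2]
      ring

end Pool.Agent.J4.H59.SV
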