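import Pool.Agent.J4.H59.SV.Bound
import Pool.Agent.H671R2.PolyAuto

/-!
# The reduction is computed in polynomial time
-/

set_option autoImplicit false

namespace Pool.Agent.J4.H59.SV

open Pool.Agent.NPC Pool.Agent.NPC.H632

/-- codes of jobs -/
def dec (c : ℕ × ℕ × ℕ) : Job := if c.1 = 0 then .big c.2.1 else .small c.2.1 c.2.2

section Poly

variable {α : Type} [TEnc α]

theorem poly_Lam {n : α → ℕ} (hn : NPC.Poly n) : NPC.Poly (fun a => Lam (n a)) := by
  unfold Lam
  fun_prop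

theorem poly_od {n k i : α → ℕ} (hn : NPC.Poly n) (hk : NPC.Poly k) (hi : NPC.Poly i) :
    NPC.Poly (fun a => od (n a) (k a) (i a)) := by
  unfold od
  fun_prop

theorem poly_av {n k i : α → ℕ} (hn : NPC.Poly n) (hk : NPC.Poly k) (hi : NPC.Poly i) :
    NPC.Poly (fun a => av (n a) (k a) (i a)) := by
  have := poly_od hn hk hi
  unfold av
  fun_prop

theorem poly_lv {n k i : α → ℕ} (hn : NPC.Poly n) (hk : NPC.Poly k) (hi : NPC.Poly i) :
    NPC.Poly (fun a => lv (n a) (k a) (i a)) := by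
  have := poly_od (k := fun a => k a + 1) hn (by fun_prop) hi
  unfold lv
  fun_prop

theorem poly_NN {n m : α → ℕ} (hn : NPC.Poly n) (hm : NPC.Poly m) :
    NPC.Poly (fun a => NN (n a) (m a)) := by
  unfold NN
  fun_prop

theorem poly_PC {n m : α → ℕ} (hn : NPC.Poly n) (hm : NPC.Poly m) :
    NPC.Poly (fun a => PC (n a) (m a)) := by
  unfold PC
  fun_prop

theorem poly_dl {n m k i : α → ℕ} (hn : NPC.Poly n) (hm : NPC.Poly m) (hk : NPC.Poly k)
    (hi : NPC.Poly i) : NPC.Poly (fun a => dl (n a) (m a) (k a) (i a)) := by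
  have h1 := poly_av hn hk hi
  have h2 := poly_lv hn hk hi
  unfold dl
  fun_prop

theorem poly_DD {n m q e : α → ℕ} (hn : NPC.Poly n) (hm : NPC.Poly m) (hq : NPC.Poly q)
    (he : NPC.Poly e) : NPC.Poly (fun a => DD (n a) (m a) (q a) (e a)) := by
  unfold DD
  fun_prop

theorem poly_TT {n m : α → ℕ} (hn : NPC.Poly n) (hm : NPC.Poly m) :
    NPC.Poly (fun a => TT (n a) (m a)) := by
  have h1 := poly_NN hn hm
  have h2 := poly_Lam hn
  unfold TT
  fun_prop

theorem poly_XX {n m q : α → ℕ} (hn : NPC.Poly n) (hm : NPC.Poly m) (hq : NPC.Poly q) :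
    NPC.Poly (fun a => XX (n a) (m a) (q a)) := by
  have h1 := poly_PC hn hm
  unfold XX
  fun_prop

theorem poly_GG {n m q : α → ℕ} (hn : NPC.Poly n) (hm : NPC.Poly m) (hq : NPC.Poly q) :
    NPC.Poly (fun a => GG (n a) (m a) (q a)) := by
  have h1 := poly_TT hn hm
  have h2 := poly_XX hn hm hq
  unfold GG
  fun_prop

theorem upoly_nI : UPoly nI := UPoly.length (NPC.Poly.fst NPC.Poly.id)

theorem upoly_qI : UPoly qI :=
  UPoly.of_le (n := nI) (by unfold qI; fun_prop) upoly_nI (fun _ => min_le_right _ _)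

theorem upoly_sI : UPoly sI := (UPoly.const 3).mul upoly_qI

theorem poly_nI : NPC.Poly nI := upoly_nI.toPoly

theorem poly_qI : NPC.Poly qI := upoly_qI.toPoly

theorem poly_sI : NPC.Poly sI := upoly_sI.toPoly

theorem upoly_mI : UPoly (fun I => 2 * sI I) := (UPoly.const 2).mul upoly_sI

theorem poly_mI : NPC.Poly (fun I => 2 * sI I) := upoly_mI.toPoly

theorem poly_MI {I : α → XI} {k i : α → ℕ} (hI : NPC.Poly I) (hk : NPC.Poly k)
    (hi : NPC.Poly i) : NPC.Poly (fun a => MI (I a) (k a) (i a)) := by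
  unfold MI el
  fun_prop

theorem poly_wtI {I : α → XI} {k i : α → ℕ} (hI : NPC.Poly I) (hk : NPC.Poly k)
    (hi : NPC.Poly i) : NPC.Poly (fun a => wt (nI (I a)) (MI (I a)) (k a) (i a)) := by
  have h1 := poly_MI hI hk hi
  have h2 : NPC.Poly (fun a => nI (I a)) := poly_nI.comp hI
  unfold wt
  fun_prop

/-- the sum over rows and sites, with lists -/
theorem sum_list (n m : ℕ) (f : ℕ → ℕ → ℕ) :
    ∑ k ∈ Finset.range m, ∑ i ∈ Finset.range n, f k i =
      ((List.range m).map fun k => ((List.range n).map fun i => f k i).sum).sum := rfl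

theorem poly_double {I : α → XI} (hI : NPC.Poly I) {f : α → ℕ → ℕ → ℕ}
    (hf : NPC.Poly (fun p : α × ℕ × ℕ => f p.1 p.2.1 p.2.2)) :
    NPC.Poly (fun a => ∑ k ∈ Finset.range (2 * sI (I a)), ∑ i ∈ Finset.range (nI (I a)), f a k i) := by
  simp only [sum_list]
  have h1 : NPC.Poly (fun a => List.range (2 * sI (I a))) := (upoly_mI.comp hI).range
  have h2 : NPC.Poly (fun p : α × ℕ => List.range (nI (I p.1))) :=
    (upoly_nI.comp (hI.comp (NPC.Poly.fst NPC.Poly.id))).range
  refine NPC.Poly.sum (NPC.Poly.map h1 ?_)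
  refine NPC.Poly.sum (NPC.Poly.map h2 ?_)
  exact hf.comp (f := fun p : (α × ℕ) × ℕ => (p.1.1, p.1.2, p.2)) (by fun_prop)

theorem poly_WTI {I : α → XI} (hI : NPC.Poly I) :
    NPC.Poly (fun a => WT (nI (I a)) (2 * sI (I a)) (MI (I a))) := by
  unfold WT
  exact poly_double hI (poly_wtI (by fun_prop) (by fun_prop) (by fun_prop))

theorem poly_FFI {I : α → XI} {e : α → ℕ} (hI : NPC.Poly I) (he : NPC.Poly e) :
    NPC.Poly (fun a => FF (nI (I a)) (2 * sI (I a)) (MI (I a)) (e a)) := by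
  unfold FF
  refine poly_double (f := fun a k i => if lv (nI (I a)) k i < e a then
    wt (nI (I a)) (MI (I a)) k i else 0) hI ?_
  have h1 : NPC.Poly (fun p : α × ℕ × ℕ => wt (nI (I p.1)) (MI (I p.1)) p.2.1 p.2.2) :=
    poly_wtI (by fun_prop) (by fun_prop) (by fun_prop)
  have h2 : NPC.Poly (fun p : α × ℕ × ℕ => lv (nI (I p.1)) p.2.1 p.2.2) :=
    poly_lv (poly_nI.comp (by fun_prop)) (by fun_prop) (by fun_prop)
  fun_prop

theorem poly_BBI {I : α → XI} (hI : NPC.Poly I) :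
    NPC.Poly (fun a => BB (nI (I a)) (2 * sI (I a)) (qI (I a)) (MI (I a))) := by
  have h0 : NPC.Poly (fun a => nI (I a)) := poly_nI.comp hI
  have h1 : NPC.Poly (fun a => 2 * sI (I a)) := poly_mI.comp hI
  have h2 : NPC.Poly (fun a => qI (I a)) := poly_qI.comp hI
  have h3 := poly_GG h0 h1 h2
  have h4 := poly_TT h0 h1
  have h5 := poly_XX h0 h1 h2
  have h6 := poly_WTI hI
  unfold BB
  fun_prop

theorem poly_KKI {I : α → XI} (hI : NPC.Poly I) :
    NPC.Poly (fun a => KK (nI (I a)) (2 * sI (I a)) (qI (I a)) (MI (I a))) := by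
  have h0 : NPC.Poly (fun a => nI (I a)) := poly_nI.comp hI
  have h1 : NPC.Poly (fun a => 2 * sI (I a)) := poly_mI.comp hI
  have h2 : NPC.Poly (fun a => qI (I a)) := poly_qI.comp hI
  have h3 := poly_GG h0 h1 h2
  have h4 := poly_TT h0 h1
  have h5 := poly_XX h0 h1 h2
  have h6 := poly_WTI hI
  have h7 := poly_BBI hI
  have h8 := poly_NN h0 h1
  unfold KK
  fun_prop

/-- the coordinate of a coded job -/
theorem xx_dec (n m : ℕ) (c : ℕ × ℕ × ℕ) : xx n m (dec c) =
    if c.1 = 0 then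
      (if (c.2.1 / (n + 1)) % 2 = 0 then (c.2.1 % (n + 1) + 1) * Lam n
        else (n - c.2.1 % (n + 1)) * Lam n)
    else (if c.2.1 % 2 = 0 then (c.2.2 + 1) * Lam n - dl n m c.2.1 c.2.2
      else (c.2.2 + 1) * Lam n + dl n m c.2.1 c.2.2) := by
  unfold dec
  split_ifs with h1 h2 h2
  · show (if _ then _ else _) = _
    rw [if_pos h2]
  · show (if _ then _ else _) = _
    rw [if_neg h2]
  · show (if _ then _ else _) = _
    rw [if_pos h2]
  · show (if _ then _ else _) = _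
    rw [if_neg h2]

theorem poly_xx {I : α → XI} {c : α → ℕ × ℕ × ℕ} (hI : NPC.Poly I) (hc : NPC.Poly c) :
    NPC.Poly (fun a => xx (nI (I a)) (2 * sI (I a)) (dec (c a))) := by
  simp only [xx_dec]
  have h0 : NPC.Poly (fun a => nI (I a)) := poly_nI.comp hI
  have h1 : NPC.Poly (fun a => 2 * sI (I a)) := poly_mI.comp hI
  have h2 := poly_Lam h0
  have h3 : NPC.Poly (fun a => dl (nI (I a)) (2 * sI (I a)) (c a).2.1 (c a).2.2) :=
    poly_dl h0 h1 (by fun_prop) (by fun_prop)
  fun_prop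

theorem rr_dec (n m q : ℕ) (M : ℕ → ℕ → ℕ) (c : ℕ × ℕ × ℕ) : rr n m q M (dec c) =
    if c.1 = 0 then BB n m q M * c.2.1 + GG n m q * (FF n m M c.2.1 + DD n m q c.2.1)
    else BB n m q M * (av n c.2.1 c.2.2 + 1) := by
  unfold dec
  split_ifs <;> rfl

theorem hh_dec (n m q : ℕ) (M : ℕ → ℕ → ℕ) (c : ℕ × ℕ × ℕ) : hh n m q M (dec c) =
    if c.1 = 0 then BB n m q M else GG n m q * wt n M c.2.1 c.2.2 := by
  unfold dec
  split_ifs <;> rfl

theorem poly_rr {I : α → XI} {c : α → ℕ × ℕ × ℕ} (hI : NPC.Poly I) (hc : NPC.Poly c) :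
    NPC.Poly (fun a => rr (nI (I a)) (2 * sI (I a)) (qI (I a)) (MI (I a)) (dec (c a))) := by
  simp only [rr_dec]
  have h0 : NPC.Poly (fun a => nI (I a)) := poly_nI.comp hI
  have h1 : NPC.Poly (fun a => 2 * sI (I a)) := poly_mI.comp hI
  have h2 : NPC.Poly (fun a => qI (I a)) := poly_qI.comp hI
  have h3 := poly_GG h0 h1 h2
  have h4 := poly_BBI hI
  have h5 := poly_FFI hI (e := fun a => (c a).2.1) (by fun_prop)
  have h6 := poly_DD h0 h1 h2 (e := fun a => (c a).2.1) (by fun_prop)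
  have h7 : NPC.Poly (fun a => av (nI (I a)) (c a).2.1 (c a).2.2) :=
    poly_av h0 (by fun_prop) (by fun_prop)
  fun_prop

theorem poly_hh {I : α → XI} {c : α → ℕ × ℕ × ℕ} (hI : NPC.Poly I) (hc : NPC.Poly c) :
    NPC.Poly (fun a => hh (nI (I a)) (2 * sI (I a)) (qI (I a)) (MI (I a)) (dec (c a))) := by
  simp only [hh_dec]
  have h0 : NPC.Poly (fun a => nI (I a)) := poly_nI.comp hI
  have h1 : NPC.Poly (fun a => 2 * sI (I a)) := poly_mI.comp hI
  have h2 : NPC.Poly (fun a => qI (I a)) := poly_qI.comp hI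
  have h3 := poly_GG h0 h1 h2
  have h4 := poly_BBI hI
  have h5 : NPC.Poly (fun a => wt (nI (I a)) (MI (I a)) (c a).2.1 (c a).2.2) :=
    poly_wtI hI (by fun_prop) (by fun_prop)
  fun_prop

end Poly

/-- the codes of the vertices -/
def vlC (n s : ℕ) : List (ℕ × ℕ × ℕ) :=
  ((List.range s).map fun t => (0, (2 * t + 1) * (n + 1) + n, 0)) ++
    ((List.range n).flatMap (fun i =>
      ((List.range s).map fun t => (1, 2 * (s - 1 - t), i)) ++
        (((List.range (2 * s + 1)).map fun k => (0, k * (n + 1) + od n k i, 0)) ++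
          (List.range s).map fun t => (1, 2 * (s - 1 - t) + 1, i))) ++
      (List.range (s + 1)).map fun t => (0, 2 * t * (n + 1) + n, 0))

theorem vlC_dec (n s : ℕ) : (vlC n s).map dec = vlJ n s := by
  unfold vlC vlJ leftJ rightJ blockJ
  simp only [List.map_append, List.map_map, List.map_flatMap]
  rfl

theorem vlC_length (n s : ℕ) : (vlC n s).length = (vlJ n s).length := by
  rw [← vlC_dec, List.length_map]

theorem poly_vlC : NPC.Poly (fun I => vlC (nI I) (sI I)) := by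
  have h0 := poly_nI
  have h1 := poly_sI
  have r1 : NPC.Poly (fun I => List.range (sI I)) := upoly_sI.range
  have r2 : NPC.Poly (fun I => List.range (nI I)) := upoly_nI.range
  have r3 : NPC.Poly (fun I => List.range (2 * sI I + 1)) := (upoly_mI.add (UPoly.const 1)).range
  have r4 : NPC.Poly (fun I => List.range (sI I + 1)) := (upoly_sI.add (UPoly.const 1)).range
  unfold vlC
  refine NPC.Poly.append (NPC.Poly.map r1 (by fun_prop)) (NPC.Poly.append ?_
    (NPC.Poly.map r4 (by fun_prop)))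
  refine NPC.Poly.flatMap r2 ?_
  refine NPC.Poly.append (NPC.Poly.map (r1.comp (NPC.Poly.fst NPC.Poly.id)) (by fun_prop))
    (NPC.Poly.append (NPC.Poly.map (r3.comp (NPC.Poly.fst NPC.Poly.id)) ?_)
      (NPC.Poly.map (r1.comp (NPC.Poly.fst NPC.Poly.id)) (by fun_prop)))
  have h2 : NPC.Poly (fun p : (XI × ℕ) × ℕ => od (nI p.1.1) p.2 p.1.2) :=
    poly_od (h0.comp (by fun_prop)) (by fun_prop) (by fun_prop)
  fun_prop

theorem poly_len : NPC.Poly (fun I => (vlC (nI I) (sI I)).length) := NPC.Poly.length poly_vlC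

theorem upoly_len : UPoly (fun I => (vlC (nI I) (sI I)).length) := UPoly.length poly_vlC

theorem poly_QI : NPC.Poly QI := by
  have h := poly_len
  simp only [vlC_length] at h
  unfold QI
  fun_prop

theorem poly_xs : NPC.Poly (fun I => (vlJ (nI I) (sI I)).map (xx (nI I) (2 * sI I))) := by
  have h : NPC.Poly (fun I => (vlC (nI I) (sI I)).map fun c => xx (nI I) (2 * sI I) (dec c)) :=
    NPC.Poly.map poly_vlC (poly_xx (by fun_prop) (by fun_prop))
  refine h.congr fun I => ?_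
  rw [← vlC_dec, List.map_map]
  rfl

theorem poly_js : NPC.Poly (fun I => (vlJ (nI I) (sI I)).map fun j =>
    (rr (nI I) (2 * sI I) (qI I) (MI I) j, hh (nI I) (2 * sI I) (qI I) (MI I) j)) := by
  have h : NPC.Poly (fun I => (vlC (nI I) (sI I)).map fun c =>
      (rr (nI I) (2 * sI I) (qI I) (MI I) (dec c), hh (nI I) (2 * sI I) (qI I) (MI I) (dec c))) :=
    NPC.Poly.map poly_vlC (NPC.Poly.pair (poly_rr (by fun_prop) (by fun_prop))
      (poly_hh (by fun_prop) (by fun_prop)))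
  refine h.congr fun I => ?_
  rw [← vlC_dec, List.map_map]
  rfl

theorem poly_redI : NPC.Poly redI := by
  have h1 := poly_QI
  have h2 := poly_xs
  have h3 := poly_js
  have h4 := poly_KKI (α := XI) (I := fun I => I) NPC.Poly.id
  have h5 : NPC.Poly (fun I => List.range (((vlJ (nI I) (sI I)).map
      (xx (nI I) (2 * sI I))).length - 1)) := by
    have h6 : UPoly (fun I => ((vlJ (nI I) (sI I)).map (xx (nI I) (2 * sI I))).length) :=
      UPoly.length poly_xs
    exact (UPoly.of_le (by fun_prop) h6 (fun _ => Nat.sub_le _ _)).range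
  unfold redI pathI mkJ mkI
  refine NPC.Poly.pair ?_ (NPC.Poly.pair ?_ (NPC.Poly.pair (NPC.Poly.const 0) ?_))
  · refine NPC.Poly.map h5 ?_
    have h6 : NPC.Poly (fun p : XI × ℕ => (vlJ (nI p.1) (sI p.1)).map (xx (nI p.1) (2 * sI p.1))) :=
      h2.comp (NPC.Poly.fst NPC.Poly.id)
    have h7 : NPC.Poly (fun p : XI × ℕ => QI p.1) := h1.comp (NPC.Poly.fst NPC.Poly.id)
    fun_prop
  · refine NPC.Poly.map h3 ?_
    have h7 : NPC.Poly (fun p : XI × (ℕ × ℕ) => QI p.1) := h1.comp (NPC.Poly.fst NPC.Poly.id)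
    fun_prop
  · fun_prop

end Pool.Agent.J4.H59.SV
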