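import Pool.Agent.J4.H59.SV.Cover

/-!
# A good schedule gives a solution of the covering problem
-/

set_option autoImplicit false

namespace Pool.Agent.J4.H59.SV

open Finset

section Idx

variable {α : Type*} [DecidableEq α] {A C : List α} {i j : α}

theorem idx_left (h : (A ++ j :: C).Nodup) (hi : i ∈ A) :
    (A ++ j :: C).idxOf i < (A ++ j :: C).idxOf j := by
  have hj : j ∉ A := fun hj => (List.nodup_append.1 h).2.2 j hj j (by simp) rfl
  rw [List.idxOf_append_of_mem hi, List.idxOf_append_of_notMem hj]
  have := List.idxOf_lt_length_iff.2 hi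
  omega

theorem idx_right (h : (A ++ j :: C).Nodup) (hi : i ∈ C) :
    (A ++ j :: C).idxOf j < (A ++ j :: C).idxOf i := by
  have hj : j ∉ A := fun hj => (List.nodup_append.1 h).2.2 j hj j (by simp) rfl
  have hiA : i ∉ A := fun hiA => (List.nodup_append.1 h).2.2 i hiA i (by simp [hi]) rfl
  have hne : j ≠ i := by
    rintro rfl
    exact (List.nodup_cons.1 (List.nodup_append.1 h).2.1).1 hi
  rw [List.idxOf_append_of_notMem hiA, List.idxOf_append_of_notMem hj,
    List.idxOf_cons_ne _ hne]
  simp

theorem mem_right_of_idx (h : (A ++ j :: C).Nodup) (hi : i ∈ A ++ j :: C)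
    (hlt : (A ++ j :: C).idxOf j < (A ++ j :: C).idxOf i) : i ∈ C := by
  rcases List.mem_append.1 hi with h1 | h1
  · have := idx_left h h1
    omega
  · rcases List.mem_cons.1 h1 with rfl | h1
    · omega
    · exact h1

theorem mem_left_of_idx (h : (A ++ j :: C).Nodup) (hi : i ∈ A ++ j :: C)
    (hlt : (A ++ j :: C).idxOf i < (A ++ j :: C).idxOf j) : i ∈ A := by
  rcases List.mem_append.1 hi with h1 | h1
  · exact h1
  · rcases List.mem_cons.1 h1 with rfl | h1
    · omega
    · have := idx_right h h1
      omega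

end Idx

/-- a good schedule -/
structure Sch (n m q : ℕ) (M : ℕ → ℕ → ℕ) (π : List Job) : Prop where
  nd : π.Nodup
  mem : ∀ j, j ∈ π ↔ Valid n m j
  bd : fin (xx n m) (rr n m q M) (hh n m q M) 0 0 0 π ≤ KK n m q M

namespace Sch

variable {n m q : ℕ} {M : ℕ → ℕ → ℕ} {π : List Job} (H : Sch n m q M π)
include H

theorem mem_big {e : ℕ} (he : e < NN n m) : Job.big e ∈ π := (H.mem _).2 he

theorem mem_small {k i : ℕ} (hk : k < m) (hi : i < n) : Job.small k i ∈ π := (H.mem _).2 ⟨hk, hi⟩

/-- the work after a job -/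
theorem after {A C : List Job} {j : Job} (hs : π = A ++ j :: C) :
    rr n m q M j + hh n m q M j +
      ((∑ e ∈ range (NN n m), if Job.big e ∈ C then BB n m q M else 0) +
        ∑ k ∈ range m, ∑ i ∈ range n, if Job.small k i ∈ C then GG n m q * wt n M k i else 0) ≤
      KK n m q M := by
  have h1 := fin_ge_release (xx n m) (rr n m q M) (hh n m q M) 0 A j C 0 0
  rw [← hs] at h1
  have hnd := H.nd
  have hm := H.mem
  rw [hs] at hnd hm
  have h2 := list_sum (n := n) (m := m) (hh n m q M) C
    (List.nodup_cons.1 (List.nodup_append.1 hnd).2.1).2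
    (fun j' hj' => (hm j').1 (List.mem_append_right _ (List.mem_cons_of_mem _ hj')))
  rw [h2] at h1
  exact h1.trans H.bd

omit H in
theorem KK_lt : KK n m q M < BB n m q M * (NN n m + 1) := by
  have : BB n m q M * (NN n m + 1) = BB n m q M * NN n m + BB n m q M := by ring
  rw [this]
  unfold KK
  have : BB n m q M = GG n m q * WT n m M + TT n m + XX n m q + 1 := rfl
  omega

/-- the clock jobs are processed in their order -/
theorem order {e e' : ℕ} (hee : e < e') (he' : e' < NN n m) :
    π.idxOf (Job.big e) < π.idxOf (Job.big e') := by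
  obtain ⟨e₀, he₀, hmin⟩ := Finset.exists_min_image (Ico e (NN n m))
    (fun e => π.idxOf (Job.big e)) ⟨e, mem_Ico.2 ⟨le_rfl, by omega⟩⟩
  rw [mem_Ico] at he₀
  obtain ⟨A, C, hs⟩ := List.append_of_mem (H.mem_big he₀.2)
  have hnd : (A ++ Job.big e₀ :: C).Nodup := hs ▸ H.nd
  have hC : ∀ e₁ ∈ Ico e (NN n m), e₁ ≠ e₀ → Job.big e₁ ∈ C := by
    intro e₁ he₁ hne
    have h1 := hmin e₁ he₁
    have h2 : Job.big e₁ ∈ A ++ Job.big e₀ :: C := hs ▸ H.mem_big (mem_Ico.1 he₁).2
    have h3 : π.idxOf (Job.big e₀) ≠ π.idxOf (Job.big e₁) := by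
      intro h
      have := (List.idxOf_inj (H.mem_big he₀.2)).1 h
      simp only [Job.big.injEq] at this
      exact hne this.symm
    refine mem_right_of_idx hnd h2 ?_
    rw [← hs]
    omega
  have h1 := H.after hs
  have h2 : BB n m q M * (NN n m - e - 1) ≤
      ∑ e ∈ range (NN n m), if Job.big e ∈ C then BB n m q M else 0 := by
    have e1 : (Ico e (NN n m)).erase e₀ ⊆ (range (NN n m)).filter (fun e => Job.big e ∈ C) := by
      intro e₁ he₁
      rw [Finset.mem_erase] at he₁
      rw [Finset.mem_filter, Finset.mem_range]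
      exact ⟨(mem_Ico.1 he₁.2).2, hC e₁ he₁.2 he₁.1⟩
    have e2 := Finset.card_le_card e1
    rw [Finset.card_erase_of_mem (mem_Ico.2 he₀), Nat.card_Ico] at e2
    rw [← Finset.sum_filter, Finset.sum_const, smul_eq_mul, mul_comm]
    exact Nat.mul_le_mul_right _ e2
  have h3 : BB n m q M * e₀ ≤ rr n m q M (.big e₀) := Nat.le_add_right _ _
  have h4 : hh n m q M (.big e₀) = BB n m q M := rfl
  have h5 := KK_lt (n := n) (m := m) (q := q) (M := M)
  have h6 : BB n m q M * (e₀ + 1 + (NN n m - e - 1)) < BB n m q M * (NN n m + 1) := by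
    have : BB n m q M * (e₀ + 1 + (NN n m - e - 1)) =
        BB n m q M * e₀ + BB n m q M + BB n m q M * (NN n m - e - 1) := by ring
    omega
  have h7 := Nat.lt_of_mul_lt_mul_left h6
  have h8 : e₀ = e := by omega
  subst h8
  have h9 := hC e' (mem_Ico.2 ⟨hee.le, he'⟩) hee.ne'
  have h10 := idx_right hnd h9
  rwa [← hs] at h10

/-- a small job is processed after its release -/
theorem after_release {k i : ℕ} (hk : k < m) (hi : i < n) :
    π.idxOf (Job.big (av n k i)) < π.idxOf (Job.small k i) := by
  have hlt : av n k i < NN n m := (av_lt_lv hi).trans (lv_lt hk hi)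
  by_contra hcon
  have h1 : π.idxOf (Job.small k i) < π.idxOf (Job.big (av n k i)) := by
    have : π.idxOf (Job.big (av n k i)) ≠ π.idxOf (Job.small k i) := by
      intro h
      have := (List.idxOf_inj (H.mem_big hlt)).1 h
      simp at this
    omega
  obtain ⟨A, C, hs⟩ := List.append_of_mem (H.mem_small hk hi)
  have hnd : (A ++ Job.small k i :: C).Nodup := hs ▸ H.nd
  have hC : ∀ e₁ ∈ Ico (av n k i) (NN n m), Job.big e₁ ∈ C := by
    intro e₁ he₁
    rw [mem_Ico] at he₁
    have h2 : Job.big e₁ ∈ A ++ Job.small k i :: C := hs ▸ H.mem_big he₁.2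
    refine mem_right_of_idx hnd h2 ?_
    rw [← hs]
    rcases Nat.eq_or_lt_of_le he₁.1 with h | h
    · rw [← h]; exact h1
    · exact h1.trans (H.order h he₁.2)
  have h2 := H.after hs
  have h3 : BB n m q M * (NN n m - av n k i) ≤
      ∑ e ∈ range (NN n m), if Job.big e ∈ C then BB n m q M else 0 := by
    have e1 : Ico (av n k i) (NN n m) ⊆ (range (NN n m)).filter (fun e => Job.big e ∈ C) := by
      intro e₁ he₁
      rw [Finset.mem_filter, Finset.mem_range]
      exact ⟨(mem_Ico.1 he₁).2, hC e₁ he₁⟩
    have e2 := Finset.card_le_card e1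
    rw [Nat.card_Ico] at e2
    rw [← Finset.sum_filter, Finset.sum_const, smul_eq_mul, mul_comm]
    exact Nat.mul_le_mul_right _ e2
  have h4 : rr n m q M (.small k i) = BB n m q M * (av n k i + 1) := rfl
  have h5 := KK_lt (n := n) (m := m) (q := q) (M := M)
  have h6 : BB n m q M * (av n k i + 1 + (NN n m - av n k i)) =
      BB n m q M * (av n k i + 1) + BB n m q M * (NN n m - av n k i) := by ring
  have h7 : av n k i + 1 + (NN n m - av n k i) = NN n m + 1 := by omega
  rw [h7] at h6
  omega

omit H in
/-- the small job `(k, i)` is processed before it is passed the second time -/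
def Early (n : ℕ) (π : List Job) (k i : ℕ) : Prop :=
  π.idxOf (Job.small k i) < π.idxOf (Job.big (lv n k i))

omit H in
instance (n : ℕ) (π : List Job) (k i : ℕ) : Decidable (Early n π k i) :=
  inferInstanceAs (Decidable (_ < _))

theorem demand {e : ℕ} (he : e < NN n m) :
    DD n m q e ≤ ∑ k ∈ range m, ∑ i ∈ range n,
      if Early n π k i ∧ av n k i < e ∧ e ≤ lv n k i then wt n M k i else 0 := by
  obtain ⟨A, C, hs⟩ := List.append_of_mem (H.mem_big he)
  have hnd : (A ++ Job.big e :: C).Nodup := hs ▸ H.nd
  have h1 := H.after hs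
  have h2 : BB n m q M * (NN n m - e - 1) ≤
      ∑ e ∈ range (NN n m), if Job.big e ∈ C then BB n m q M else 0 := by
    have e1 : Ico (e + 1) (NN n m) ⊆ (range (NN n m)).filter (fun e => Job.big e ∈ C) := by
      intro e₁ he₁
      rw [mem_Ico] at he₁
      rw [Finset.mem_filter, Finset.mem_range]
      refine ⟨he₁.2, mem_right_of_idx hnd (hs ▸ H.mem_big he₁.2) ?_⟩
      rw [← hs]
      exact H.order (by omega) he₁.2
    have e2 := Finset.card_le_card e1
    rw [Nat.card_Ico] at e2
    rw [← Finset.sum_filter, Finset.sum_const, smul_eq_mul, mul_comm]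
    exact Nat.mul_le_mul_right _ (by omega)
  have h3 : rr n m q M (.big e) = BB n m q M * e + GG n m q * (FF n m M e + DD n m q e) := rfl
  have h4 : hh n m q M (.big e) = BB n m q M := rfl
  have h5 : BB n m q M * NN n m = BB n m q M * e + BB n m q M + BB n m q M * (NN n m - e - 1) := by
    have : NN n m = e + 1 + (NN n m - e - 1) := by omega
    conv_lhs => rw [this]
    ring
  have h6 : ∑ k ∈ range m, ∑ i ∈ range n,
      (if Job.small k i ∈ C then GG n m q * wt n M k i else 0) =
      GG n m q * ∑ k ∈ range m, ∑ i ∈ range n, (if Job.small k i ∈ C then wt n M k i else 0) := by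
    rw [Finset.mul_sum]
    refine Finset.sum_congr rfl fun k _ => ?_
    rw [Finset.mul_sum]
    refine Finset.sum_congr rfl fun i _ => ?_
    split_ifs <;> simp
  rw [h6] at h1
  set c := ∑ k ∈ range m, ∑ i ∈ range n, (if Job.small k i ∈ C then wt n M k i else 0) with hc
  have h7 : GG n m q * (FF n m M e + DD n m q e + c) < GG n m q * (WT n m M + 1) := by
    have e1 : GG n m q * (FF n m M e + DD n m q e + c) =
        GG n m q * (FF n m M e + DD n m q e) + GG n m q * c := by ring
    have e2 : GG n m q * (WT n m M + 1) = GG n m q * WT n m M + GG n m q := by ring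
    have e3 : GG n m q = TT n m + XX n m q + 1 := rfl
    have e4 : KK n m q M = BB n m q M * NN n m + GG n m q * WT n m M + TT n m + XX n m q := rfl
    omega
  have h8 : FF n m M e + DD n m q e + c ≤ WT n m M :=
    Nat.lt_succ_iff.1 (Nat.lt_of_mul_lt_mul_left h7)
  have h9 : WT n m M ≤ c + FF n m M e + ∑ k ∈ range m, ∑ i ∈ range n,
      if Early n π k i ∧ av n k i < e ∧ e ≤ lv n k i then wt n M k i else 0 := by
    rw [hc]
    unfold WT FF
    rw [← Finset.sum_add_distrib, ← Finset.sum_add_distrib]
    refine Finset.sum_le_sum fun k hk => ?_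
    rw [← Finset.sum_add_distrib, ← Finset.sum_add_distrib]
    refine Finset.sum_le_sum fun i hi => ?_
    rw [Finset.mem_range] at hk hi
    by_cases hC : Job.small k i ∈ C
    · simp only [hC, if_true]
      omega
    · simp only [hC, if_false, zero_add]
      by_cases hl : lv n k i < e
      · simp only [hl, if_true]
        omega
      · simp only [hl, if_false, zero_add]
        have h10 : π.idxOf (Job.small k i) < π.idxOf (Job.big e) := by
          have h11 : π.idxOf (Job.small k i) ≠ π.idxOf (Job.big e) := by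
            intro h
            have := (List.idxOf_inj (H.mem_small hk hi)).1 h
            simp at this
          by_contra h12
          refine hC (mem_right_of_idx hnd (hs ▸ H.mem_small hk hi) ?_)
          rw [← hs]
          omega
        rw [if_pos]
        refine ⟨?_, ?_, by omega⟩
        · unfold Early
          rcases Nat.eq_or_lt_of_le (not_lt.1 hl) with h11 | h11
          · rw [← h11]; exact h10
          · exact h10.trans (H.order h11 (lv_lt hk hi))
        · by_contra h11
          have h12 := H.after_release hk hi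
          rcases Nat.eq_or_lt_of_le (not_lt.1 h11) with h13 | h13
          · rw [← h13] at h12
            omega
          · have := H.order h13 ((av_lt_lv hi).trans (lv_lt hk hi))
            omega
  omega

end Sch

end Pool.Agent.J4.H59.SV
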