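import Pool.Agent.J4.H59.SV.Layout
import Pool.Agent.H632R2.X3C

/-!
# Exact cover by 3-sets as a covering problem
-/

set_option autoImplicit false

namespace Pool.Agent.J4.H59.SV

open Finset Pool.Agent.NPC.H632

/-- instances of exact cover by 3-sets -/
abbrev XI : Type := List (ℕ × ℕ × ℕ) × ℕ

/-- the number of sites: the number of triples -/
def nI (I : XI) : ℕ := I.1.length

/-- the number of triples to be chosen -/
def qI (I : XI) : ℕ := min I.2 I.1.length

/-- half the number of rows: the number of elements -/
def sI (I : XI) : ℕ := 3 * qI I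

/-- the element `k / 2` belongs to the triple number `i` -/
def MI (I : XI) (k i : ℕ) : ℕ := if k / 2 ∈ el (I.1.getD i (0, 0, 0)) then 1 else 0

theorem MI_le (I : XI) (k i : ℕ) : MI I k i ≤ 1 := by unfold MI; split_ifs <;> omega

theorem qI_eq {I : XI} (hI : X3CPr I) : qI I = I.2 := min_eq_left hI.2.2

theorem cover_iff {I : XI} (hI : X3CPr I) :
    X3C I ↔ ∃ S : Finset ℕ, S ⊆ range (nI I) ∧ S.card = qI I ∧
      ∀ k < 2 * sI I, ∃ i ∈ S, MI I k i ≠ 0 := by
  classical
  have hq := qI_eq hI
  unfold sI
  rw [hq]
  constructor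
  · rintro ⟨C, hC, hp⟩
    have hlen := X3C_length hp
    have hCnd : C.Nodup := by
      have h1 : (C.flatMap el).Nodup := hp.nodup_iff.2 List.nodup_range
      rw [List.nodup_flatMap] at h1
      refine h1.2.imp ?_
      intro a b hab heq
      have hab' : List.Disjoint (el a) (el b) := hab
      exact hab' (show a.1 ∈ el a by simp [el]) (heq ▸ (show a.1 ∈ el a by simp [el]))
    have hinj : ∀ a ∈ C, ∀ b ∈ C, I.1.idxOf a = I.1.idxOf b → a = b := by
      intro a ha b hb hab
      exact (List.idxOf_inj (hC a ha)).1 hab
    refine ⟨(C.map (fun t => I.1.idxOf t)).toFinset, ?_, ?_, ?_⟩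
    · intro i hi
      rw [List.mem_toFinset, List.mem_map] at hi
      obtain ⟨t, ht, rfl⟩ := hi
      exact Finset.mem_range.2 (List.idxOf_lt_length_iff.2 (hC t ht))
    · rw [List.toFinset_card_of_nodup (hCnd.map_on hinj), List.length_map, hlen]
    · intro k hk
      have h1 : k / 2 ∈ C.flatMap el := hp.mem_iff.2 (List.mem_range.2 (by omega))
      obtain ⟨t, ht, hkt⟩ := List.mem_flatMap.1 h1
      refine ⟨I.1.idxOf t, List.mem_toFinset.2 (List.mem_map_of_mem ht), ?_⟩
      unfold MI
      have h2 : I.1.idxOf t < I.1.length := List.idxOf_lt_length_iff.2 (hC t ht)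
      rw [List.getD_eq_getElem _ _ h2, List.getElem_idxOf h2, if_pos hkt]
      exact one_ne_zero
  · rintro ⟨S, hS, hcard, hhit⟩
    refine ⟨S.toList.map (fun i => I.1.getD i (0, 0, 0)), ?_, ?_⟩
    · intro t ht
      obtain ⟨i, hi, rfl⟩ := List.mem_map.1 ht
      have h1 : i < I.1.length := Finset.mem_range.1 (hS (Finset.mem_toList.1 hi))
      rw [List.getD_eq_getElem _ _ h1]
      exact List.getElem_mem h1
    · set L := (S.toList.map (fun i => I.1.getD i (0, 0, 0))).flatMap el with hL
      have hlen : L.length = 3 * I.2 := by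
        rw [hL, List.length_flatMap]
        have : ((S.toList.map (fun i => I.1.getD i (0, 0, 0))).map (fun t => (el t).length)) =
            S.toList.map (fun _ => 3) := by
          rw [List.map_map]
          rfl
        rw [this]
        simp [hcard, mul_comm]
      have hsub : List.range (3 * I.2) ⊆ L := by
        intro x hx
        rw [List.mem_range] at hx
        obtain ⟨i, hi, hM⟩ := hhit (2 * x) (by omega)
        unfold MI at hM
        have h2 : 2 * x / 2 = x := by omega
        rw [h2] at hM
        have h3 : x ∈ el (I.1.getD i (0, 0, 0)) := by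
          by_contra hcon
          rw [if_neg hcon] at hM
          exact hM rfl
        exact List.mem_flatMap.2 ⟨_, List.mem_map_of_mem (Finset.mem_toList.2 hi), h3⟩
      have h4 : (List.range (3 * I.2)).Subperm L := List.nodup_range.subperm hsub
      exact (h4.perm_of_length_le (by rw [hlen, List.length_range])).symm

/-- the factor -/
def QI (I : XI) : ℕ := ((vlJ (nI I) (sI I)).length + 1) * (vlJ (nI I) (sI I)).length + 1

/-- the reduction -/
def redI (I : XI) : Instance := pathI (QI I) (nI I) (sI I) (qI I) (MI I)

theorem redI_correct {I : XI} (hI : X3CPr I) : X3C I ↔ (redI I).Feasible := by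
  rw [cover_iff hI]
  unfold redI
  rw [pathI_iff]
  · unfold sI
    rw [qI_eq hI]
    have := hI.2.1
    omega
  · unfold nI qI
    exact min_le_right _ _
  · exact MI_le I
  · unfold QI
    omega

end Pool.Agent.J4.H59.SV
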