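import Pool.Agent.J4.H59.SV.Sound

/-!
# The length of the tour of a good schedule
-/

set_option autoImplicit false

namespace Pool.Agent.J4.H59.SV

open Finset

theorem xx_big {n m k o : ℕ} (ho : o ≤ n) : xx n m (.big (k * (n + 1) + o)) =
    if k % 2 = 0 then (o + 1) * Lam n else (n - o) * Lam n := by
  have h1 : (k * (n + 1) + o) / (n + 1) = k := by
    rw [Nat.add_comm, Nat.add_mul_div_right _ _ (Nat.succ_pos n), Nat.div_eq_of_lt (by omega)]
    omega
  have h2 : (k * (n + 1) + o) % (n + 1) = o := by
    rw [Nat.add_comm, Nat.add_mul_mod_self_right]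
    exact Nat.mod_eq_of_lt (by omega)
  show (if ((k * (n + 1) + o) / (n + 1)) % 2 = 0 then ((k * (n + 1) + o) % (n + 1) + 1) * Lam n
    else (n - (k * (n + 1) + o) % (n + 1)) * Lam n) = _
  rw [h1, h2]

theorem xx_small (n m k i : ℕ) : xx n m (.small k i) =
    if k % 2 = 0 then (i + 1) * Lam n - dl n m k i else (i + 1) * Lam n + dl n m k i := rfl

theorem exists_ko (n e : ℕ) : ∃ k o, o ≤ n ∧ e = k * (n + 1) + o :=
  ⟨e / (n + 1), e % (n + 1), Nat.lt_succ_iff.1 (Nat.mod_lt _ (Nat.succ_pos n)),
    (Nat.div_add_mod' e (n + 1)).symm⟩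

/-- neighbouring clock jobs have the same distance -/
theorem ad_big {n m e : ℕ} : ad (xx n m (.big e)) (xx n m (.big (e + 1))) = Lam n := by
  obtain ⟨k, o, ho, rfl⟩ := exists_ko n e
  rcases Nat.eq_or_lt_of_le ho with h | h
  · subst h
    have e1 : k * (o + 1) + o + 1 = (k + 1) * (o + 1) + 0 := by ring
    rw [e1, xx_big le_rfl, xx_big (Nat.zero_le _)]
    rcases Nat.mod_two_eq_zero_or_one k with hk | hk
    · have hk' : (k + 1) % 2 = 1 := by omega
      rw [if_pos hk, if_neg (by omega)]
      have : (o + 1) * Lam o = (o - 0) * Lam o + Lam o := by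
        rw [Nat.sub_zero]; ring
      unfold ad
      omega
    · have hk' : (k + 1) % 2 = 0 := by omega
      rw [if_neg (by omega), if_pos hk']
      unfold ad
      simp
  · have e1 : k * (n + 1) + o + 1 = k * (n + 1) + (o + 1) := by ring
    rw [e1, xx_big ho, xx_big (show o + 1 ≤ n from h)]
    split_ifs
    · have : (o + 1 + 1) * Lam n = (o + 1) * Lam n + Lam n := by ring
      unfold ad
      omega
    · have : (n - o) * Lam n = (n - (o + 1)) * Lam n + Lam n := by
        have e2 : n - o = n - (o + 1) + 1 := by omega
        rw [e2]; ring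
      unfold ad
      omega

/-- in the interval of an even job the clock jobs are on its right side -/
theorem big_ge {n m k i e : ℕ} (hi : i < n) (hk : k % 2 = 0) (h1 : av n k i ≤ e)
    (h2 : e ≤ lv n k i) : (i + 1) * Lam n ≤ xx n m (.big e) := by
  have hod : od n k i = i := by unfold od; rw [if_pos hk]
  have hod' : od n (k + 1) i = n - 1 - i := by rw [od_succ k hi, hod]
  unfold av at h1
  unfold lv at h2
  rw [hod] at h1
  rw [hod'] at h2
  obtain ⟨k', o, ho, rfl⟩ := exists_ko n e
  have hk' : k' = k ∨ k' = k + 1 := by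
    have e1 : k ≤ k' := by
      by_contra hcon
      have : (k' + 1) * (n + 1) ≤ k * (n + 1) := Nat.mul_le_mul_right _ (by omega)
      have e2 : (k' + 1) * (n + 1) = k' * (n + 1) + (n + 1) := by ring
      omega
    have e1 : k' ≤ k + 1 := by
      by_contra hcon
      have : (k + 1 + 1) * (n + 1) ≤ k' * (n + 1) := Nat.mul_le_mul_right _ (by omega)
      have e2 : (k + 1 + 1) * (n + 1) = (k + 1) * (n + 1) + (n + 1) := by ring
      omega
    omega
  rw [xx_big ho]
  rcases hk' with rfl | rfl
  · rw [if_pos hk]
    exact Nat.mul_le_mul_right _ (by omega)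
  · rw [if_neg (by omega)]
    exact Nat.mul_le_mul_right _ (by omega)

/-- in the interval of an odd job the clock jobs are on its left side -/
theorem big_le {n m k i e : ℕ} (hi : i < n) (hk : k % 2 = 1) (h1 : av n k i ≤ e)
    (h2 : e ≤ lv n k i) : xx n m (.big e) ≤ (i + 1) * Lam n := by
  have hod : od n k i = n - 1 - i := by unfold od; rw [if_neg (by omega)]
  have hod' : od n (k + 1) i = i := by rw [od_succ k hi, hod]; omega
  unfold av at h1
  unfold lv at h2
  rw [hod] at h1
  rw [hod'] at h2
  obtain ⟨k', o, ho, rfl⟩ := exists_ko n e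
  have hk' : k' = k ∨ k' = k + 1 := by
    have e1 : k ≤ k' := by
      by_contra hcon
      have : (k' + 1) * (n + 1) ≤ k * (n + 1) := Nat.mul_le_mul_right _ (by omega)
      have e2 : (k' + 1) * (n + 1) = k' * (n + 1) + (n + 1) := by ring
      omega
    have e1 : k' ≤ k + 1 := by
      by_contra hcon
      have : (k + 1 + 1) * (n + 1) ≤ k' * (n + 1) := Nat.mul_le_mul_right _ (by omega)
      have e2 : (k + 1 + 1) * (n + 1) = (k + 1) * (n + 1) + (n + 1) := by ring
      omega
    omega
  rw [xx_big ho]
  rcases hk' with rfl | rfl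
  · rw [if_neg (by omega)]
    exact Nat.mul_le_mul_right _ (by omega)
  · rw [if_pos (by omega)]
    exact Nat.mul_le_mul_right _ (by omega)

/-- the units between a small job and its site -/
def strt (n m k i : ℕ) : Finset ℕ :=
  if k % 2 = 0 then Ico ((i + 1) * Lam n - dl n m k i) ((i + 1) * Lam n)
    else Ico ((i + 1) * Lam n) ((i + 1) * Lam n + dl n m k i)

theorem card_strt {n m k i : ℕ} (hi : i < n) : (strt n m k i).card = dl n m k i := by
  have h1 := dl_le (m := m) (k := k) hi
  have h2 : 1 * Lam n ≤ (i + 1) * Lam n := Nat.mul_le_mul_right _ (by omega)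
  unfold strt
  split_ifs
  · rw [Nat.card_Ico]
    unfold Lam at *
    omega
  · rw [Nat.card_Ico]
    omega

/-- the units determine the site and the side -/
theorem strt_inj {n m k i k' i' y : ℕ} (hi : i < n) (hi' : i' < n) (h1 : y ∈ strt n m k i)
    (h2 : y ∈ strt n m k' i') : i = i' ∧ k % 2 = k' % 2 := by
  have d1 := dl_le (m := m) (k := k) hi
  have d2 := dl_le (m := m) (k := k') hi'
  have key : ∀ a b : ℕ, a < b → (a + 1) * Lam n + (4 * n + 4) ≤ (b + 1) * Lam n := by
    intro a b hab
    have : (a + 1 + 1) * Lam n ≤ (b + 1) * Lam n := Nat.mul_le_mul_right _ (by omega)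
    have e : (a + 1 + 1) * Lam n = (a + 1) * Lam n + Lam n := by ring
    unfold Lam at *
    omega
  unfold strt at h1 h2
  split_ifs at h1 h2 with hk hk' hk'
  · rw [mem_Ico] at h1 h2
    refine ⟨?_, by omega⟩
    rcases Nat.lt_trichotomy i i' with h | h | h
    · have := key _ _ h
      omega
    · exact h
    · have := key _ _ h
      omega
  · rw [mem_Ico] at h1 h2
    exfalso
    rcases Nat.lt_trichotomy i i' with h | h | h
    · have := key _ _ h
      omega
    · subst h
      omega
    · have := key _ _ h
      omega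
  · rw [mem_Ico] at h1 h2
    exfalso
    rcases Nat.lt_trichotomy i i' with h | h | h
    · have := key _ _ h
      omega
    · subst h
      omega
    · have := key _ _ h
      omega
  · rw [mem_Ico] at h1 h2
    refine ⟨?_, by omega⟩
    rcases Nat.lt_trichotomy i i' with h | h | h
    · have := key _ _ h
      omega
    · exact h
    · have := key _ _ h
      omega

namespace Sch

variable {n m q : ℕ} {M : ℕ → ℕ → ℕ} {π : List Job}

/-- the cost of a job -/
def cst (n m : ℕ) (π : List Job) : Job → ℕ
  | .big _ => 0
  | .small k i => if Early n π k i then dl n m k i else 0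

/-- the units of the detour of a job -/
def uni (n m : ℕ) (π : List Job) : Job → Finset ℕ
  | .big _ => ∅
  | .small k i => if Early n π k i then strt n m k i else ∅

theorem uni_small (k i : ℕ) : uni n m π (.small k i) =
    if Early n π k i then strt n m k i else ∅ := rfl

theorem cst_small (k i : ℕ) : cst n m π (.small k i) =
    if Early n π k i then dl n m k i else 0 := rfl

theorem card_uni {j : Job} (hj : Valid n m j) : (uni n m π j).card = cst n m π j := by
  cases j with
  | big e => rfl
  | small k i =>
    rw [uni_small, cst_small]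
    split_ifs
    · exact card_strt hj.2
    · rfl

variable (H : Sch n m q M π)
include H

theorem lt_of_idx {e e' : ℕ} (he : e < NN n m)
    (h : π.idxOf (Job.big e) < π.idxOf (Job.big e')) : e < e' := by
  by_contra hcon
  rcases Nat.eq_or_lt_of_le (not_lt.1 hcon) with h1 | h1
  · rw [h1] at h
    omega
  · have := H.order h1 he
    omega

/-- the travel between two consecutive clock jobs -/
theorem seg {e : ℕ} (he : e + 1 < NN n m) {A S C : List Job}
    (hs : π = A ++ Job.big e :: (S ++ Job.big (e + 1) :: C)) :
    Lam n + 2 * (S.map (cst n m π)).sum ≤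
      pl (xx n m (.big e)) (S.map (xx n m) ++ [xx n m (.big (e + 1))]) := by
  have hs2 : π = (A ++ Job.big e :: S) ++ Job.big (e + 1) :: C := by rw [hs]; simp
  have hnd := H.nd
  have hSmem : ∀ j ∈ S, j ∈ π := by
    intro j hj
    rw [hs]
    simp [hj]
  have hSv : ∀ j ∈ S, Valid n m j := fun j hj => (H.mem j).1 (hSmem j hj)
  have hSnd : S.Nodup := by
    rw [hs] at hnd
    exact (List.nodup_append.1 (List.nodup_cons.1 (List.nodup_append.1 hnd).2.1).2).1
  have hidx : ∀ j ∈ S, π.idxOf (Job.big e) < π.idxOf j ∧ π.idxOf j < π.idxOf (Job.big (e + 1)) := by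
    intro j hj
    constructor
    · have h1 := idx_right (A := A) (C := S ++ Job.big (e + 1) :: C) (j := Job.big e) (i := j)
        (hs ▸ hnd) (List.mem_append_left _ hj)
      rwa [← hs] at h1
    · have h1 := idx_left (A := A ++ Job.big e :: S) (C := C) (j := Job.big (e + 1)) (i := j)
        (hs2 ▸ hnd) (by simp [hj])
      rwa [← hs2] at h1
  have hwin : ∀ k i, Job.small k i ∈ S → Early n π k i → av n k i ≤ e ∧ e + 1 ≤ lv n k i := by
    intro k i hki hE
    obtain ⟨h1, h2⟩ := hidx _ hki
    have hv := hSv _ hki
    have h3 := H.after_release hv.1 hv.2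
    constructor
    · have h4 := H.lt_of_idx (e' := e + 1) ((av_lt_lv hv.2).trans (lv_lt hv.1 hv.2)) (h3.trans h2)
      omega
    · exact H.lt_of_idx (e := e) (by omega) (h1.trans hE)
  have hcard : (S.toFinset.biUnion (uni n m π)).card = (S.map (cst n m π)).sum := by
    rw [Finset.card_biUnion, List.sum_toFinset _ hSnd]
    · congr 1
      exact List.map_congr_left fun j hj => card_uni (hSv j hj)
    · intro j hj j' hj' hne
      rw [Finset.mem_coe, List.mem_toFinset] at hj hj'
      show Disjoint (uni n m π j) (uni n m π j')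
      rw [Finset.disjoint_left]
      intro y hy hy'
      cases j with
      | big _ => simp [uni] at hy
      | small k i =>
        cases j' with
        | big _ => simp [uni] at hy'
        | small k' i' =>
          rw [uni_small] at hy hy'
          split_ifs at hy hy' with h1 h2
          · obtain ⟨rfl, hkk⟩ := strt_inj (hSv _ hj).2 (hSv _ hj').2 hy hy'
            obtain ⟨w1, w2⟩ := hwin _ _ hj h1
            obtain ⟨w3, w4⟩ := hwin _ _ hj' h2
            have hi := (hSv _ hj).2
            have key : ∀ a b : ℕ, a < b → a % 2 = b % 2 → lv n a i < av n b i := by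
              intro a b hab hpar
              have e1 : (a + 2) * (n + 1) ≤ b * (n + 1) := Nat.mul_le_mul_right _ (by omega)
              have e2 : (a + 2) * (n + 1) = (a + 1) * (n + 1) + (n + 1) := by ring
              have e3 := od_lt (a + 1) hi
              unfold lv av
              omega
            rcases Nat.lt_trichotomy k k' with h | h | h
            · have := key _ _ h hkk
              omega
            · exact hne (by rw [h])
            · have := key _ _ h hkk.symm
              omega
          · simp at hy'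
          · simp at hy
          · simp at hy
  rw [← hcard, ← ad_big (n := n) (m := m) (e := e)]
  refine seg_ge _ fun y hy => ?_
  rw [Finset.mem_biUnion] at hy
  obtain ⟨j, hj, hy⟩ := hy
  rw [List.mem_toFinset] at hj
  cases j with
  | big _ => simp [uni] at hy
  | small k i =>
    rw [uni_small] at hy
    split_ifs at hy with hE
    · obtain ⟨w1, w2⟩ := hwin _ _ hj hE
      have hi := (hSv _ hj).2
      have hd := dl_le (m := m) (k := k) hi
      unfold strt at hy
      split_ifs at hy with hk
      · rw [mem_Ico] at hy
        have g1 := big_ge (m := m) hi hk w1 (by omega : e ≤ lv n k i)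
        have g2 := big_ge (m := m) hi hk (by omega : av n k i ≤ e + 1) w2
        refine ⟨by omega, xx n m (.small k i), List.mem_map_of_mem hj, ?_⟩
        have g3 : xx n m (.small k i) = (i + 1) * Lam n - dl n m k i := by
          rw [xx_small, if_pos hk]
        rw [g3]
        omega
      · rw [mem_Ico] at hy
        have g1 := big_le (m := m) hi (by omega) w1 (by omega : e ≤ lv n k i)
        have g2 := big_le (m := m) hi (by omega) (by omega : av n k i ≤ e + 1) w2
        refine ⟨by omega, xx n m (.small k i), List.mem_map_of_mem hj, ?_⟩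
        have g3 : xx n m (.small k i) = (i + 1) * Lam n + dl n m k i := by
          rw [xx_small, if_neg hk]
        rw [g3]
        omega
    · simp at hy

/-- the travel before a clock job -/
theorem before (e : ℕ) (he : e < NN n m) : ∃ A C, π = A ++ Job.big e :: C ∧
    (e + 1) * Lam n + 2 * (A.map (cst n m π)).sum ≤
      pl 0 (A.map (xx n m) ++ [xx n m (.big e)]) := by
  induction e with
  | zero =>
    obtain ⟨A, C, hs⟩ := List.append_of_mem (H.mem_big he)
    refine ⟨A, C, hs, ?_⟩
    have hnd : (A ++ Job.big 0 :: C).Nodup := hs ▸ H.nd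
    have hA : A = [] := by
      rw [List.eq_nil_iff_forall_not_mem]
      intro j hj
      have h1 := idx_left hnd hj
      rw [← hs] at h1
      have hv : Valid n m j := (H.mem j).1 (hs ▸ List.mem_append_left _ hj)
      cases j with
      | big e' =>
        have := H.lt_of_idx hv h1
        omega
      | small k i =>
        have h2 := H.after_release hv.1 hv.2
        have := H.lt_of_idx ((av_lt_lv hv.2).trans (lv_lt hv.1 hv.2)) (h2.trans h1)
        omega
    subst hA
    have h1 := xx_big (n := n) (m := m) (k := 0) (Nat.zero_le n)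
    simp only [Nat.zero_mul, Nat.zero_add, Nat.zero_mod, if_true] at h1
    simp [pl, h1, ad]
  | succ e ih =>
    obtain ⟨A, C, hs, hA⟩ := ih (by omega)
    have hnd : (A ++ Job.big e :: C).Nodup := hs ▸ H.nd
    have h1 : Job.big (e + 1) ∈ C := by
      refine mem_right_of_idx hnd (hs ▸ H.mem_big he) ?_
      rw [← hs]
      exact H.order (Nat.lt_succ_self e) he
    obtain ⟨S, C', rfl⟩ := List.append_of_mem h1
    have h2 := H.seg he hs
    refine ⟨A ++ Job.big e :: S, C', by rw [hs]; simp, ?_⟩
    have h3 : (A ++ Job.big e :: S).map (xx n m) ++ [xx n m (.big (e + 1))] =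
        A.map (xx n m) ++ xx n m (.big e) :: (S.map (xx n m) ++ [xx n m (.big (e + 1))]) := by
      simp
    rw [h3, pl_append]
    have h4 : ((A ++ Job.big e :: S).map (cst n m π)).sum =
        (A.map (cst n m π)).sum + (S.map (cst n m π)).sum := by
      simp [cst]
    rw [h4]
    have h5 : (e + 1 + 1) * Lam n = (e + 1) * Lam n + Lam n := by ring
    omega

/-- the detours are within the budget -/
theorem detours (hm : m % 2 = 0) :
    ∑ k ∈ range m, ∑ i ∈ range n, (if Early n π k i then dl n m k i else 0) ≤ q * PC n m := by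
  have hN : NN n m = m * (n + 1) + n + 1 := by unfold NN; ring
  obtain ⟨A, C, hs, hA⟩ := H.before (NN n m - 1) (by omega)
  have hnd : (A ++ Job.big (NN n m - 1) :: C).Nodup := hs ▸ H.nd
  have h1 := fin_ge (xx n m) (rr n m q M) (hh n m q M) 0 π 0 0
  have h2 := h1.trans H.bd
  have h3 : π.map (xx n m) ++ [0] =
      A.map (xx n m) ++ xx n m (.big (NN n m - 1)) :: (C.map (xx n m) ++ [0]) := by
    conv_lhs => rw [hs]
    simp
  rw [h3, pl_append] at h2
  have h4 := seg_ge (p := xx n m (.big (NN n m - 1))) (q := 0) (S := C.map (xx n m)) ∅ (by simp)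
  have h5 : xx n m (.big (NN n m - 1)) = (n + 1) * Lam n := by
    have e1 : NN n m - 1 = m * (n + 1) + n := by omega
    rw [e1, xx_big le_rfl, if_pos hm]
  have h6 : ad (xx n m (.big (NN n m - 1))) 0 = (n + 1) * Lam n := by
    rw [h5]; unfold ad; omega
  have h7 : (π.map (hh n m q M)).sum = BB n m q M * NN n m + GG n m q * WT n m M := by
    rw [list_sum (n := n) (m := m) (hh n m q M) π H.nd (fun j hj => (H.mem j).1 hj)]
    congr 1
    · have : ∀ e ∈ range (NN n m), (if Job.big e ∈ π then hh n m q M (.big e) else 0) =
          BB n m q M := by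
        intro e he
        rw [if_pos (H.mem_big (Finset.mem_range.1 he))]
        rfl
      rw [Finset.sum_congr rfl this]
      simp [mul_comm]
    · unfold WT
      rw [Finset.mul_sum]
      refine Finset.sum_congr rfl fun k hk => ?_
      rw [Finset.mul_sum]
      refine Finset.sum_congr rfl fun i hi => ?_
      rw [if_pos (H.mem_small (Finset.mem_range.1 hk) (Finset.mem_range.1 hi))]
      rfl
  have h8 : ∑ k ∈ range m, ∑ i ∈ range n, (if Early n π k i then dl n m k i else 0) ≤
      (A.map (cst n m π)).sum := by
    rw [list_sum (n := n) (m := m) (cst n m π) A (List.nodup_append.1 hnd).1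
      (fun j hj => (H.mem j).1 (hs ▸ List.mem_append_left _ hj))]
    refine le_trans ?_ (Nat.le_add_left _ _)
    refine Finset.sum_le_sum fun k hk => Finset.sum_le_sum fun i hi => ?_
    rw [Finset.mem_range] at hk hi
    by_cases hE : Early n π k i
    · have h9 : Job.small k i ∈ A := by
        refine mem_left_of_idx hnd (hs ▸ H.mem_small hk hi) ?_
        rw [← hs]
        have h10 := lv_lt hk hi
        rcases Nat.eq_or_lt_of_le (by omega : lv n k i ≤ NN n m - 1) with h11 | h11
        · rw [← h11]; exact hE
        · exact lt_trans hE (H.order h11 (by omega))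
      simp [hE, h9, cst]
    · simp [hE]
  have h9 : (NN n m - 1 + 1) * Lam n = NN n m * Lam n := by
    rw [Nat.sub_add_cancel (by omega)]
  rw [h9] at hA
  rw [h6] at h4
  have h10 : KK n m q M = BB n m q M * NN n m + GG n m q * WT n m M + TT n m + XX n m q := rfl
  have h11 : TT n m = NN n m * Lam n + (n + 1) * Lam n := rfl
  have h12 : XX n m q = 2 * (q * PC n m) := rfl
  simp only [Finset.card_empty, mul_zero, add_zero] at h4
  omega

/-- **A good schedule gives a solution of the covering problem.** -/
theorem solution (hm : m % 2 = 0) (hm1 : 1 ≤ m) (hq : q ≤ n) (hM : ∀ k i, M k i ≤ 1) :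
    ∃ S : Finset ℕ, S ⊆ range n ∧ S.card = q ∧ ∀ k < m, ∃ i ∈ S, M k i ≠ 0 :=
  cover_of hm1 hq hM (Early n π) (H.detours hm) fun _ he => H.demand he

end Sch

end Pool.Agent.J4.H59.SV
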